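import Pool.Agent.MP_e061a3_an.Levels

set_option autoImplicit false

/-!
# A curve going to infinity meets circles about each abscissa
-/

namespace Pool.Agent.MP_e061a3_an

open Filter Topology

/-- Logarithmic lifts of the curve. -/
def lifts (γ : ℝ → ℂ) : Set ℂ := {w | ∃ t : ℝ, 0 ≤ t ∧ Complex.exp w = γ t}

lemma continuousAt_norm_log (ζ : ℂ) (hζ : ζ ≠ 0) :
    ContinuousAt (fun z : ℂ => ‖Complex.log z‖) ζ := by
  have h1 : ContinuousAt (fun z : ℂ => InnerProductGeometry.angle (1:ℂ) z) ζ := by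
    have h2 := InnerProductGeometry.continuousAt_angle (x := ((1:ℂ), ζ)) one_ne_zero hζ
    exact h2.comp (f := fun z : ℂ => ((1:ℂ), z)) (by fun_prop)
  have h3 : ContinuousAt (fun z : ℂ => Real.sqrt ((Real.log ‖z‖) ^ 2
      + (InnerProductGeometry.angle (1:ℂ) z) ^ 2)) ζ := by
    have h4 : ContinuousAt (fun z : ℂ => Real.log ‖z‖) ζ :=
      ContinuousAt.log continuous_norm.continuousAt (norm_ne_zero_iff.mpr hζ)
    exact ((h4.pow 2).add (h1.pow 2)).sqrt
  apply h3.congr
  filter_upwards [isOpen_ne.mem_nhds hζ] with z hz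
  rw [Complex.angle_one_left hz, sq_abs]
  have h5 : ‖Complex.log z‖ = Real.sqrt (Complex.normSq (Complex.log z)) := rfl
  rw [h5, Complex.normSq_apply, Complex.log_re, Complex.log_im]
  congr 1
  ring

theorem reaches_lifts (γ : ℝ → ℂ) (hγ : ContinuousOn γ (Set.Ici 0))
    (hinf : Tendsto (fun t => ‖γ t‖) atTop atTop) :
    Reaches (lifts γ) (Real.log (‖γ 0‖ + 1)) := by
  intro x hx
  have h01 : 0 < ‖γ 0‖ + 1 := by have := norm_nonneg (γ 0); linarith
  have hx1 : ‖γ 0‖ + 1 ≤ Real.exp x := by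
    rw [← Real.log_le_iff_le_exp h01]; exact hx
  -- last exit time
  set S : Set ℝ := {t | 0 ≤ t ∧ ‖γ t‖ ≤ Real.exp x} with hS
  have hSne : S.Nonempty := ⟨0, le_refl _, by linarith⟩
  have hSbdd : BddAbove S := by
    obtain ⟨T, hT⟩ := (tendsto_atTop.mp hinf (Real.exp x + 1)).exists_forall_of_atTop
    refine ⟨T, ?_⟩
    intro t ht
    by_contra hlt
    push Not at hlt
    have := hT t hlt.le
    have := ht.2
    linarith
  have hSclosed : IsClosed S := by
    have h2 : S = Set.Ici 0 ∩ (fun t => ‖γ t‖) ⁻¹' (Set.Iic (Real.exp x)) := by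
      ext t; simp [hS]
    rw [h2]
    exact hγ.norm.preimage_isClosed_of_isClosed isClosed_Ici isClosed_Iic
  set t₀ := sSup S with ht₀
  have ht₀S : t₀ ∈ S := hSclosed.csSup_mem hSne hSbdd
  have hafter : ∀ t, t₀ < t → Real.exp x < ‖γ t‖ := by
    intro t ht
    by_contra hle
    push Not at hle
    have : t ∈ S := ⟨ht₀S.1.trans ht.le, hle⟩
    exact absurd (le_csSup hSbdd this) (not_le.mpr ht)
  have hnorm : ‖γ t₀‖ = Real.exp x := by
    apply le_antisymm ht₀S.2
    have hcw : ContinuousWithinAt (fun t => ‖γ t‖) (Set.Ioi t₀) t₀ :=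
      ((hγ.norm t₀ ht₀S.1).mono (fun t ht => ht₀S.1.trans (le_of_lt ht)))
    have : Tendsto (fun t => ‖γ t‖) (𝓝[>] t₀) (𝓝 ‖γ t₀‖) := hcw
    refine ge_of_tendsto this ?_
    filter_upwards [self_mem_nhdsWithin] with t ht
    exact (hafter t ht).le
  have hγ0 : γ t₀ ≠ 0 := by
    rw [← norm_pos_iff, hnorm]; exact Real.exp_pos x
  have hge : ∀ t, t₀ ≤ t → Real.exp x ≤ ‖γ t‖ := by
    intro t ht
    rcases ht.eq_or_lt with h | h
    · rw [← h, hnorm]
    · exact (hafter t h).le
  have hne : ∀ t, t₀ ≤ t → γ t ≠ 0 := by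
    intro t ht
    rw [← norm_pos_iff]
    exact (Real.exp_pos x).trans_le (hge t ht)
  refine ⟨Complex.log (γ t₀), ?_, ?_⟩
  · rw [Complex.log_re, hnorm, Real.log_exp]
  · intro ρ hρ0 hρ1
    set h : ℝ → ℝ := fun t => ‖Complex.log (γ t / γ t₀)‖ with hh
    have hcont : ContinuousOn h (Set.Ici t₀) := by
      intro t ht
      have h1 : ContinuousWithinAt (fun t => γ t / γ t₀) (Set.Ici t₀) t :=
        ((hγ t (ht₀S.1.trans ht)).mono (fun s hs => ht₀S.1.trans hs)).div_const _
      exact ContinuousAt.comp_continuousWithinAt (f := fun t => γ t / γ t₀)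
        (continuousAt_norm_log (γ t / γ t₀) (div_ne_zero (hne t ht) hγ0)) h1
    have h0 : h t₀ = 0 := by
      simp only [hh]
      rw [div_self hγ0, Complex.log_one, norm_zero]
    obtain ⟨T, hT0, hT⟩ : ∃ T, t₀ ≤ T ∧ 1 ≤ h T := by
      obtain ⟨T, hT⟩ := (tendsto_atTop.mp hinf (Real.exp (x + 1))).exists_forall_of_atTop
      refine ⟨max T t₀, le_max_right _ _, ?_⟩
      have h2 := hT (max T t₀) (le_max_left _ _)
      have h3 : (Complex.log (γ (max T t₀) / γ t₀)).re ≤ h (max T t₀) := by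
        simp only [hh]
        exact (le_abs_self _).trans (Complex.abs_re_le_norm _)
      refine le_trans ?_ h3
      rw [Complex.log_re, norm_div, hnorm]
      rw [Real.le_log_iff_exp_le (by
        apply div_pos _ (Real.exp_pos _)
        exact (Real.exp_pos _).trans_le h2)]
      rw [le_div_iff₀ (Real.exp_pos _), ← Real.exp_add]
      rw [add_comm]
      exact h2
    have hivt : Set.Icc (h t₀) (h T) ⊆ h '' Set.Icc t₀ T :=
      intermediate_value_Icc hT0 (hcont.mono Set.Icc_subset_Ici_self)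
    obtain ⟨t, ht, hht⟩ := hivt ⟨by rw [h0]; exact hρ0, hρ1.trans hT⟩
    refine ⟨Complex.log (γ t₀) + Complex.log (γ t / γ t₀), ⟨t, ht₀S.1.trans ht.1, ?_⟩, ?_⟩
    · rw [Complex.exp_add, Complex.exp_log hγ0, Complex.exp_log (div_ne_zero (hne t ht.1) hγ0)]
      field_simp
    · rw [add_sub_cancel_left]
      exact hht

end Pool.Agent.MP_e061a3_an
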