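import Pool.Agent.MP_e061a3_an.Remez

set_option autoImplicit false

/-!
# Local and global bounds for exponential sums with few terms
-/

namespace Pool.Agent.MP_e061a3_an

open Finset Polynomial

/-- Bound at `w` from the disc `|z - z₀| ≤ D / K`, where `|w - z₀| ≤ D`; general direction. -/
theorem expSum_from_disc (c : ℕ → ℂ) (S : Finset ℕ) (P : ℝ) (hP : ∀ p ∈ S, (p:ℝ) ≤ P)
    (hP0 : 0 ≤ P) (z₀ w : ℂ) (D r : ℝ) (K : ℕ) (hK : 1 ≤ K) (hD : ‖w - z₀‖ ≤ D)
    (hDK : D ≤ K * r) (M : ℝ) (hM : 0 ≤ M)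
    (hb : ∀ u, ‖u - z₀‖ ≤ r → ‖expSum c S u‖ ≤ M) :
    ‖expSum c S w‖ ≤ (2 * Real.exp 1 * K) ^ S.card * Real.exp (P * max 0 (w.re - z₀.re)) * M := by
  rcases Nat.eq_zero_or_pos S.card with h0 | hn
  · have hS : S = ∅ := card_eq_zero.mp h0
    subst hS
    simp only [expSum, sum_empty, norm_zero, card_empty, pow_zero, one_mul]
    positivity
  set n := S.card with hndef
  have hnR : (0:ℝ) < n := by exact_mod_cast hn
  have hKR : (1:ℝ) ≤ K := by exact_mod_cast hK
  have hK0 : (0:ℝ) < K := by linarith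
  set m := (K - 1) * n with hmdef
  have hmn : m + n = K * n := by
    rw [hmdef]
    obtain ⟨K', rfl⟩ : ∃ K', K = K' + 1 := ⟨K - 1, by omega⟩
    simp only [Nat.add_sub_cancel]
    ring
  set ζ : ℂ := (z₀ - w) / ((K * n : ℕ) : ℂ) with hζ
  have hKn0 : ((K * n : ℕ) : ℂ) ≠ 0 := by
    have : K * n ≠ 0 := by positivity
    exact_mod_cast this
  have hKnR : (0:ℝ) < ((K * n : ℕ) : ℝ) := by
    have : 0 < K * n := by positivity
    exact_mod_cast this
  have hζre : ζ.re = (z₀.re - w.re) / ((K * n : ℕ) : ℝ) := by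
    rw [hζ]
    rw [show (((K * n : ℕ) : ℂ)) = (((K * n : ℕ) : ℝ) : ℂ) by push_cast; ring]
    rw [Complex.div_ofReal_re]
    simp
  -- points of the progression lie in the small disc
  have hpts : ∀ j : ℕ, m < j → j ≤ m + n → ‖w + j * ζ - z₀‖ ≤ r := by
    intro j h1 h2
    have hjR1 : (m:ℝ) < j := by exact_mod_cast h1
    have hjR2 : (j:ℝ) ≤ K * n := by
      have : j ≤ K * n := by omega
      exact_mod_cast this
    have e1 : w + j * ζ - z₀ = (((1 - (j:ℝ) / ((K * n : ℕ) : ℝ) : ℝ)) : ℂ) * (w - z₀) := by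
      rw [hζ]
      push_cast
      have : (K:ℂ) * n ≠ 0 := by exact_mod_cast hKn0
      field_simp
      ring
    rw [e1, norm_mul, Complex.norm_real, Real.norm_eq_abs]
    have h3 : (j:ℝ) / ((K * n : ℕ) : ℝ) ≤ 1 := by
      rw [div_le_one hKnR]
      push_cast
      exact hjR2
    have h4 : 1 - (j:ℝ) / ((K * n : ℕ) : ℝ) ≤ 1 / K := by
      have hm1 : (m:ℝ) = K * n - n := by
        have : ((m + n : ℕ) : ℝ) = ((K * n : ℕ) : ℝ) := by rw [hmn]
        push_cast at this
        linarith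
      rw [sub_le_iff_le_add, div_add_div _ _ hK0.ne' hKnR.ne', le_div_iff₀ (by positivity)]
      push_cast
      nlinarith
    rw [abs_of_nonneg (by linarith)]
    calc (1 - (j:ℝ) / ((K * n : ℕ) : ℝ)) * ‖w - z₀‖ ≤ 1 / K * (K * r) := by
          apply mul_le_mul h4 (hD.trans hDK) (norm_nonneg _) (by positivity)
      _ = r := by field_simp
  have hC : turanC n m ≤ (2 * Real.exp 1 * K) ^ n := by
    apply turanC_le
    have : n + m = K * n := by omega
    rw [this]
    push_cast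
    exact le_rfl
  rcases le_total (w.re) (z₀.re) with hre | hre
  · -- moving right: q = 0
    have hmax : max 0 (w.re - z₀.re) = 0 := max_eq_left (by linarith)
    rw [hmax, mul_zero, Real.exp_zero, mul_one]
    have hζ0 : 0 ≤ ζ.re := by rw [hζre]; apply div_nonneg (by linarith) hKnR.le
    have h := expSum_turan c S m w ζ 0 M hM (fun p _ => by
      rw [sub_zero]; exact mul_nonneg (Nat.cast_nonneg p) hζ0) (fun j h1 h2 => by
      simp only [zero_mul, neg_zero, Real.exp_zero, mul_one]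
      exact hb _ (hpts j h1 h2))
    exact h.trans (mul_le_mul_of_nonneg_right hC hM)
  · have hmax : max 0 (w.re - z₀.re) = w.re - z₀.re := max_eq_right (by linarith)
    rw [hmax]
    have hζ0 : ζ.re ≤ 0 := by
      rw [hζre]; apply div_nonpos_of_nonpos_of_nonneg (by linarith) hKnR.le
    have h := expSum_turan c S m w ζ P (Real.exp (P * (w.re - z₀.re)) * M) (by positivity)
      (fun p hp => by
        apply mul_nonneg_of_nonpos_of_nonpos (by linarith [hP p hp]) hζ0) (fun j h1 h2 => by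
      have h5 : -(P * j * ζ.re) ≤ P * (w.re - z₀.re) := by
        rw [hζre]
        have hj : (j:ℝ) ≤ ((K * n : ℕ) : ℝ) := by
          have : j ≤ K * n := by omega
          exact_mod_cast this
        have h6 : (j:ℝ) / ((K * n : ℕ) : ℝ) ≤ 1 := by rw [div_le_one hKnR]; exact hj
        have h7 : -(P * j * ((z₀.re - w.re) / ((K * n : ℕ) : ℝ)))
            = P * (w.re - z₀.re) * ((j:ℝ) / ((K * n : ℕ) : ℝ)) := by
          field_simp
          ring
        rw [h7]
        have h8 : 0 ≤ P * (w.re - z₀.re) := mul_nonneg hP0 (by linarith)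
        nlinarith
      calc ‖expSum c S (w + j * ζ)‖ * Real.exp (-(P * j * ζ.re))
          ≤ M * Real.exp (P * (w.re - z₀.re)) := by
            apply mul_le_mul (hb _ (hpts j h1 h2)) (Real.exp_le_exp.mpr h5) (Real.exp_pos _).le hM
        _ = Real.exp (P * (w.re - z₀.re)) * M := mul_comm _ _)
    calc ‖expSum c S w‖ ≤ turanC n m * (Real.exp (P * (w.re - z₀.re)) * M) := h
      _ ≤ (2 * Real.exp 1 * K) ^ n * (Real.exp (P * (w.re - z₀.re)) * M) :=
          mul_le_mul_of_nonneg_right hC (by positivity)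
      _ = _ := by ring

/-- Remez type inequality for exponential sums: `n` frequencies in `[0, P]`, `|E| ≤ M` on a set
meeting all circles `|w - z₀| = ρ`, `0 ≤ ρ ≤ r`. -/
theorem expSum_remez (c : ℕ → ℂ) (S : Finset ℕ) (P : ℝ) (hP : ∀ p ∈ S, (p:ℝ) ≤ P)
    (hP0 : 0 ≤ P) (z₀ : ℂ) (r : ℝ) (hr : 0 < r) (M : ℝ) (hM : 0 ≤ M)
    (hE : ∀ ρ, 0 ≤ ρ → ρ ≤ r → ∃ w, ‖w - z₀‖ = ρ ∧ ‖expSum c S w‖ ≤ M) (w : ℂ)
    (hw : ‖w - z₀‖ ≤ r) :
    ‖expSum c S w‖ ≤ Real.exp (100 * (S.card + P * r) + 13) * M := by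
  -- maximum on the closed disc
  obtain ⟨ws, hws, hmax⟩ := (isCompact_closedBall z₀ r).exists_isMaxOn
    ⟨z₀, Metric.mem_closedBall_self hr.le⟩
    ((differentiable_expSum c S).continuous.norm.continuousOn)
  set B := ‖expSum c S ws‖ with hB
  have hB0 : 0 ≤ B := norm_nonneg _
  have hball : ∀ u, ‖u - z₀‖ ≤ r → ‖expSum c S u‖ ≤ B := by
    intro u hu
    exact hmax (by rw [Metric.mem_closedBall, dist_eq_norm]; exact hu)
  set n := S.card with hn
  set A : ℝ := (2 * Real.exp 1 * (30 : ℕ)) ^ n * Real.exp (P * (30 * r)) with hA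
  have hA1 : 1 ≤ A := by
    have he : (1:ℝ) ≤ Real.exp 1 := Real.one_le_exp (by norm_num)
    have h1 : (1:ℝ) ≤ (2 * Real.exp 1 * (30 : ℕ)) ^ n := by
      apply one_le_pow₀
      push_cast
      linarith
    have h2 : (1:ℝ) ≤ Real.exp (P * (30 * r)) := Real.one_le_exp (by positivity)
    rw [hA]
    nlinarith
  have hbig : ∀ u, ‖u - z₀‖ ≤ 30 * r → ‖expSum c S u‖ ≤ A * B := by
    intro u hu
    have h := expSum_from_disc c S P hP hP0 z₀ u (30 * r) r 30 (by norm_num) hu (by norm_num) B hB0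
      hball
    refine h.trans ?_
    rw [hA]
    apply mul_le_mul_of_nonneg_right _ hB0
    apply mul_le_mul_of_nonneg_left _ (by positivity)
    apply Real.exp_le_exp.mpr
    apply mul_le_mul_of_nonneg_left _ hP0
    apply max_le (by positivity)
    have h1 : u.re - z₀.re ≤ ‖u - z₀‖ := by
      rw [← Complex.sub_re]
      exact (le_abs_self _).trans (Complex.abs_re_le_norm _)
    linarith
  -- degree of the Taylor polynomial
  obtain ⟨d, hd1, hd2⟩ : ∃ d : ℕ, 0 < d ∧ (8 * A ≤ (30 / 11 : ℝ) ^ d ∧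
      (11:ℝ) ^ d ≤ Real.exp (100 * (n + P * r) + 12)) := by
    set X : ℝ := 37 * (n + P * r) + 3.5 with hX
    have hPr : 0 ≤ P * r := by positivity
    have hX0 : 0 ≤ X := by rw [hX]; positivity
    refine ⟨⌈X⌉₊, ?_, ?_, ?_⟩
    · rw [Nat.ceil_pos, hX]
      positivity
    · have hc := Nat.le_ceil X
      -- (30/11) ≥ exp 1 up to: use exp 1 < 2.7182818286 < 30/11
      have he1 : Real.exp 1 ≤ 30 / 11 := by
        have := Real.exp_one_lt_d9
        linarith
      have h1 : Real.exp X ≤ (30 / 11 : ℝ) ^ ⌈X⌉₊ := by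
        calc Real.exp X ≤ Real.exp (⌈X⌉₊ : ℝ) := Real.exp_le_exp.mpr hc
          _ = Real.exp 1 ^ ⌈X⌉₊ := by rw [← Real.exp_nat_mul]; simp
          _ ≤ _ := pow_le_pow_left₀ (Real.exp_pos 1).le he1 _
      refine le_trans ?_ h1
      -- 8 A ≤ exp X
      have h8 : (8:ℝ) ≤ Real.exp 3.5 := by
        have h2 : (2.7:ℝ) ≤ Real.exp 1 := by
          have := Real.exp_one_gt_d9
          linarith
        calc (8:ℝ) ≤ 2.7 ^ 3 := by norm_num
          _ ≤ Real.exp 1 ^ 3 := pow_le_pow_left₀ (by norm_num) h2 3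
          _ = Real.exp 3 := by rw [← Real.exp_nat_mul]; norm_num
          _ ≤ Real.exp 3.5 := Real.exp_le_exp.mpr (by norm_num)
      have h3 : (2 * Real.exp 1 * (30 : ℕ)) ^ n ≤ Real.exp (6 * n) := by
        have h4 : (2 * Real.exp 1 * (30 : ℕ) : ℝ) ≤ Real.exp 6 := by
          have h5 : (2.7:ℝ) ≤ Real.exp 1 := by
            have := Real.exp_one_gt_d9
            linarith
          have h6 : Real.exp 6 = Real.exp 1 ^ 5 * Real.exp 1 := by
            rw [← Real.exp_nat_mul, ← Real.exp_add]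
            norm_num
          rw [h6]
          have h7 : (60:ℝ) ≤ Real.exp 1 ^ 5 := by
            calc (60:ℝ) ≤ 2.7 ^ 5 := by norm_num
              _ ≤ _ := pow_le_pow_left₀ (by norm_num) h5 5
          push_cast
          nlinarith [Real.exp_pos 1]
        calc (2 * Real.exp 1 * (30 : ℕ) : ℝ) ^ n ≤ Real.exp 6 ^ n :=
              pow_le_pow_left₀ (by positivity) h4 n
          _ = Real.exp (6 * n) := by rw [← Real.exp_nat_mul]; ring_nf
      calc 8 * A ≤ Real.exp 3.5 * (Real.exp (6 * n) * Real.exp (P * (30 * r))) := by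
            rw [hA]
            apply mul_le_mul h8 _ (by positivity) (by positivity)
            apply mul_le_mul_of_nonneg_right h3 (by positivity)
        _ = Real.exp (3.5 + (6 * n + P * (30 * r))) := by
            rw [← Real.exp_add, ← Real.exp_add]
        _ ≤ Real.exp X := by
            apply Real.exp_le_exp.mpr
            rw [hX]
            have : (0:ℝ) ≤ n := Nat.cast_nonneg n
            nlinarith
    · have hc := (Nat.ceil_lt_add_one hX0).le
      have h11 : (11:ℝ) ≤ Real.exp 2.5 := by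
        have h2 : (2.7:ℝ) ≤ Real.exp 1 := by
          have := Real.exp_one_gt_d9
          linarith
        have h3 : Real.exp 5 = Real.exp 2.5 ^ 2 := by
          rw [← Real.exp_nat_mul]; norm_num
        have h4 : (11:ℝ) ^ 2 ≤ Real.exp 2.5 ^ 2 := by
          rw [← h3]
          calc (11:ℝ) ^ 2 ≤ 2.7 ^ 5 := by norm_num
            _ ≤ Real.exp 1 ^ 5 := pow_le_pow_left₀ (by norm_num) h2 5
            _ = Real.exp 5 := by rw [← Real.exp_nat_mul]; norm_num
        exact le_of_sq_le_sq h4 (Real.exp_pos _).le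
      calc (11:ℝ) ^ ⌈X⌉₊ ≤ Real.exp 2.5 ^ ⌈X⌉₊ := pow_le_pow_left₀ (by norm_num) h11 _
        _ = Real.exp (⌈X⌉₊ * 2.5) := by rw [← Real.exp_nat_mul]
        _ ≤ Real.exp (100 * (n + P * r) + 12) := by
            apply Real.exp_le_exp.mpr
            have h5 : (⌈X⌉₊ : ℝ) ≤ 37 * (n + P * r) + 4.5 := by
              have h6 := hX
              linarith [hc, h6]
            have : 0 ≤ (n:ℝ) + P * r := by positivity
            nlinarith
  obtain ⟨hd2, hd3⟩ := hd2
  -- Taylor polynomial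
  obtain ⟨T, hTdeg, -, hTrem⟩ := taylor_remainder (expSum c S) (differentiable_expSum c S) z₀ r 30
    (A * B) hr (by norm_num) (fun u hu => hbig u hu) d
  set ε : ℝ := 2 * (A * B) * (30⁻¹) ^ d with hε
  have hε0 : 0 ≤ ε := by rw [hε]; positivity
  -- nodes
  have hdR : (0:ℝ) < d := by exact_mod_cast hd1
  have hnode : ∀ i : ℕ, ∃ v : ℂ, i < d → ‖v - z₀‖ = i * (r / d) ∧ ‖expSum c S v‖ ≤ M := by
    intro i
    by_cases hi : i < d
    · have hiR : (i:ℝ) ≤ d := by exact_mod_cast hi.le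
      obtain ⟨v, hv1, hv2⟩ := hE (i * (r / d)) (by positivity) (by
        calc (i:ℝ) * (r / d) ≤ d * (r / d) := mul_le_mul_of_nonneg_right hiR (by positivity)
          _ = r := by field_simp)
      exact ⟨v, fun _ => ⟨hv1, hv2⟩⟩
    · exact ⟨0, fun h => absurd h hi⟩
  choose v hv using hnode
  have hvr : ∀ i < d, ‖v i - z₀‖ ≤ r := by
    intro i hi
    rw [(hv i hi).1]
    have hiR : (i:ℝ) ≤ d := by exact_mod_cast hi.le
    calc (i:ℝ) * (r / d) ≤ d * (r / d) := mul_le_mul_of_nonneg_right hiR (by positivity)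
      _ = r := by field_simp
  have hsep : ∀ i < d, ∀ j < d, |(i:ℝ) - j| * (r / d) ≤ ‖v i - v j‖ := by
    intro i hi j hj
    have h1 : ‖v i - v j‖ = ‖(v i - z₀) - (v j - z₀)‖ := by congr 1; ring
    rw [h1]
    have h2 := abs_norm_sub_norm_le (v i - z₀) (v j - z₀)
    rw [(hv i hi).1, (hv j hj).1, ← sub_mul, abs_mul, abs_of_pos (show 0 < r / d by positivity)]
      at h2
    exact h2
  have hTn : ∀ i < d, ‖T.eval (v i)‖ ≤ M + ε := by
    intro i hi
    have h1 := hTrem (v i) (hvr i hi)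
    have h2 : T.eval (v i) = expSum c S (v i) - (expSum c S (v i) - T.eval (v i)) := by ring
    rw [h2]
    exact (norm_sub_le _ _).trans (add_le_add (hv i hi).2 h1)
  have hTw : ∀ u, ‖u - z₀‖ ≤ r → ‖T.eval u‖ ≤ 11 ^ d * (M + ε) := by
    intro u hu
    apply poly_remez T d hd1 hTdeg v r hr hsep u _ (M + ε) (by positivity) hTn
    intro j hj
    have : u - v j = (u - z₀) - (v j - z₀) := by ring
    rw [this]
    refine (norm_sub_le _ _).trans ?_
    linarith [hvr j hj]
  -- bound for B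
  have hBle : B ≤ 11 ^ d * (M + ε) + ε := by
    have hws' : ‖ws - z₀‖ ≤ r := by
      rw [Metric.mem_closedBall, dist_eq_norm] at hws
      exact hws
    have h1 := hTrem ws hws'
    have h2 : expSum c S ws = T.eval ws + (expSum c S ws - T.eval ws) := by ring
    rw [hB, h2]
    exact (norm_add_le _ _).trans (add_le_add (hTw ws hws') h1)
  have hεle : (11 ^ d + 1) * ε ≤ B / 2 := by
    have h1 : (11 ^ d + 1 : ℝ) ≤ 2 * 11 ^ d := by
      have : (1:ℝ) ≤ 11 ^ d := one_le_pow₀ (by norm_num)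
      linarith
    have h2 : (11:ℝ) ^ d * (30⁻¹) ^ d = ((30 / 11 : ℝ) ^ d)⁻¹ := by
      rw [← mul_pow, ← inv_pow]
      congr 1
      norm_num
    calc (11 ^ d + 1) * ε ≤ 2 * 11 ^ d * ε := mul_le_mul_of_nonneg_right h1 hε0
      _ = 4 * A * B * (11 ^ d * (30⁻¹) ^ d) := by rw [hε]; ring
      _ = B * (4 * A * ((30 / 11 : ℝ) ^ d)⁻¹) := by rw [h2]; ring
      _ ≤ B * (1 / 2) := by
          apply mul_le_mul_of_nonneg_left _ hB0
          rw [← div_eq_mul_inv, div_le_iff₀ (by positivity)]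
          linarith
      _ = B / 2 := by ring
  have hB2 : B ≤ 2 * 11 ^ d * M := by
    nlinarith
  have h2e : (2:ℝ) ≤ Real.exp 1 := by
    have := Real.exp_one_gt_d9
    linarith
  calc ‖expSum c S w‖ ≤ B := hball w hw
    _ ≤ 2 * 11 ^ d * M := hB2
    _ ≤ Real.exp 1 * Real.exp (100 * (n + P * r) + 12) * M := by
        apply mul_le_mul_of_nonneg_right _ hM
        exact mul_le_mul h2e hd3 (by positivity) (Real.exp_pos _).le
    _ = Real.exp (100 * (n + P * r) + 13) * M := by
        rw [← Real.exp_add]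
        congr 2
        ring

/-- Periodicity of exponential sums. -/
lemma expSum_add_two_pi (c : ℕ → ℂ) (S : Finset ℕ) (w : ℂ) (k : ℤ) :
    expSum c S (w + k * (2 * Real.pi * Complex.I)) = expSum c S w := by
  unfold expSum
  apply sum_congr rfl
  intro p _
  congr 1
  rw [mul_add, Complex.exp_add]
  have h : Complex.exp (p * (k * (2 * Real.pi * Complex.I))) = 1 := by
    rw [show (p:ℂ) * (k * (2 * Real.pi * Complex.I))
      = ((p * k : ℤ) : ℂ) * (2 * Real.pi * Complex.I) by push_cast; ring]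
    exact Complex.exp_int_mul_two_pi_mul_I _
  rw [h, mul_one]

/-- Global bound on the vertical line through `z₀` from the disc of radius `r ≤ 1`. -/
theorem expSum_vertical (c : ℕ → ℂ) (S : Finset ℕ) (z₀ : ℂ) (r : ℝ) (hr : 0 < r) (hr1 : r ≤ 1)
    (M : ℝ) (hM : 0 ≤ M) (hb : ∀ u, ‖u - z₀‖ ≤ r → ‖expSum c S u‖ ≤ M) (w : ℂ)
    (hw : w.re = z₀.re) :
    ‖expSum c S w‖ ≤ (40 / r) ^ S.card * M := by
  -- reduce the imaginary part
  set k : ℤ := ⌊(z₀.im - w.im) / (2 * Real.pi)⌋ with hk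
  have hpi := Real.pi_pos
  set w' : ℂ := w + k * (2 * Real.pi * Complex.I) with hw'
  have hE : expSum c S w = expSum c S w' := (expSum_add_two_pi c S w k).symm
  have hre : w'.re = z₀.re := by
    rw [hw', ← hw]
    simp
  have him : w'.im = w.im + k * (2 * Real.pi) := by
    rw [hw']
    simp
  have hfl1 := Int.floor_le ((z₀.im - w.im) / (2 * Real.pi))
  have hfl2 := Int.lt_floor_add_one ((z₀.im - w.im) / (2 * Real.pi))
  rw [← hk] at hfl1 hfl2
  rw [le_div_iff₀ (by positivity)] at hfl1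
  rw [div_lt_iff₀ (by positivity)] at hfl2
  have hdist : ‖w' - z₀‖ ≤ 2 * Real.pi := by
    have h1 : w' - z₀ = ((w'.im - z₀.im : ℝ) : ℂ) * Complex.I := by
      apply Complex.ext
      · simp [hre]
      · simp
    rw [h1, norm_mul, Complex.norm_I, mul_one, Complex.norm_real, Real.norm_eq_abs, abs_le]
    rw [him]
    constructor <;> nlinarith
  -- maximal frequency
  obtain ⟨P, hP0, hP⟩ : ∃ P : ℝ, 0 ≤ P ∧ ∀ p ∈ S, (p:ℝ) ≤ P := by
    refine ⟨∑ p ∈ S, (p:ℝ), sum_nonneg (fun p _ => Nat.cast_nonneg p), fun p hp => ?_⟩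
    exact single_le_sum (f := fun p : ℕ => (p:ℝ)) (fun q _ => Nat.cast_nonneg q) hp
  set K : ℕ := ⌈2 * Real.pi / r⌉₊ with hKdef
  have hK1 : 1 ≤ K := by
    rw [hKdef]
    apply Nat.one_le_ceil_iff.mpr
    positivity
  have hKle := Nat.le_ceil (2 * Real.pi / r)
  rw [← hKdef, div_le_iff₀ hr] at hKle
  have h := expSum_from_disc c S P hP hP0 z₀ w' (2 * Real.pi) r K hK1 hdist hKle M hM hb
  rw [hre, sub_self, max_self, mul_zero, Real.exp_zero, mul_one] at h
  rw [hE]
  refine h.trans ?_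
  apply mul_le_mul_of_nonneg_right _ hM
  apply pow_le_pow_left₀ (by positivity)
  have hKlt := (Nat.ceil_lt_add_one (show 0 ≤ 2 * Real.pi / r by positivity)).le
  rw [← hKdef] at hKlt
  have hpi4 := Real.pi_lt_d2
  have he := Real.exp_one_lt_d9
  have h1 : (K:ℝ) ≤ 7.3 / r := by
    calc (K:ℝ) ≤ 2 * Real.pi / r + 1 := hKlt
      _ ≤ 2 * Real.pi / r + 1 / r := by
          have : 1 ≤ 1 / r := by rw [le_div_iff₀ hr]; linarith
          linarith
      _ = (2 * Real.pi + 1) / r := by ring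
      _ ≤ 7.3 / r := by
          apply div_le_div_of_nonneg_right _ hr.le
          linarith
  have h2 : 0 ≤ 7.3 / r := by positivity
  calc 2 * Real.exp 1 * K ≤ 2 * 2.72 * (7.3 / r) := by
        apply mul_le_mul _ h1 (by positivity) (by norm_num)
        linarith
    _ = (2 * 2.72 * 7.3) / r := by ring
    _ ≤ 40 / r := by
        apply div_le_div_of_nonneg_right _ hr.le
        norm_num

/-- Coefficient bound: `|c_p| e^{p x} ≤ sup` over the vertical line `Re w = x`. -/
theorem expSum_coeff (c : ℕ → ℂ) (S : Finset ℕ) (x M : ℝ)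
    (hb : ∀ w : ℂ, w.re = x → ‖expSum c S w‖ ≤ M) (p : ℕ) (hp : p ∈ S) :
    ‖c p‖ * Real.exp (p * x) ≤ M := by
  -- N larger than all frequencies
  obtain ⟨N, hN⟩ : ∃ N : ℕ, ∀ q ∈ S, q < N := ⟨S.sup id + 1, fun q hq =>
    Nat.lt_succ_of_le (le_sup (f := id) hq)⟩
  have hN0 : 0 < N := lt_of_le_of_lt (Nat.zero_le p) (hN p hp)
  have hNC : (N:ℂ) ≠ 0 := by exact_mod_cast hN0.ne'
  set ω : ℂ := Complex.exp (2 * Real.pi * Complex.I / N) with hω
  have hprim : IsPrimitiveRoot ω N := Complex.isPrimitiveRoot_exp N hN0.ne'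
  have hω0 : ω ≠ 0 := Complex.exp_ne_zero _
  have hωn : ‖ω‖ = 1 := by
    rw [hω, Complex.norm_exp]
    have : (2 * (Real.pi:ℂ) * Complex.I / N).re = 0 := by
      rw [show (2 * (Real.pi:ℂ) * Complex.I / N) = ((2 * Real.pi / N : ℝ) : ℂ) * Complex.I by
        push_cast; ring]
      simp
    rw [this, Real.exp_zero]
  set pt : ℕ → ℂ := fun j => (x:ℂ) + j * (2 * Real.pi * Complex.I / N) with hpt
  have hptre : ∀ j, (pt j).re = x := by
    intro j
    simp only [hpt]
    rw [show (x:ℂ) + j * (2 * Real.pi * Complex.I / N)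
      = (x:ℂ) + ((j * (2 * Real.pi / N) : ℝ) : ℂ) * Complex.I by push_cast; ring]
    simp
  have hexp : ∀ (q j : ℕ), Complex.exp (q * pt j) = Complex.exp (q * x) * (ω ^ q) ^ j := by
    intro q j
    simp only [hpt, hω]
    rw [← Complex.exp_nat_mul, ← Complex.exp_nat_mul, ← Complex.exp_add]
    congr 1
    ring
  have hsum : ∑ j ∈ range N, expSum c S (pt j) * ((ω ^ p)⁻¹) ^ j
      = N * (c p * Complex.exp (p * x)) := by
    unfold expSum
    simp_rw [sum_mul]
    rw [sum_comm]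
    rw [sum_eq_single p]
    · have : ∀ j ∈ range N, c p * Complex.exp (p * pt j) * ((ω ^ p)⁻¹) ^ j
          = c p * Complex.exp (p * x) := by
        intro j _
        rw [hexp, mul_assoc, mul_assoc, ← mul_pow, mul_inv_cancel₀ (pow_ne_zero _ hω0), one_pow,
          mul_one]
      rw [sum_congr rfl this, sum_const, card_range, nsmul_eq_mul]
    · intro q hq hqp
      have h1 : ∀ j ∈ range N, c q * Complex.exp (q * pt j) * ((ω ^ p)⁻¹) ^ j
          = c q * Complex.exp (q * x) * (ω ^ q * (ω ^ p)⁻¹) ^ j := by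
        intro j _
        rw [hexp, mul_pow]
        ring
      rw [sum_congr rfl h1, ← mul_sum]
      have hne : ω ^ q * (ω ^ p)⁻¹ ≠ 1 := by
        intro h
        have h2 : ω ^ q = ω ^ p := by
          have := congrArg (fun t => t * ω ^ p) h
          simp only [mul_assoc, inv_mul_cancel₀ (pow_ne_zero p hω0), mul_one, one_mul] at this
          exact this
        exact hqp (hprim.pow_inj (hN q hq) (hN p hp) h2)
      have hNp : (ω ^ q * (ω ^ p)⁻¹) ^ N = 1 := by
        rw [mul_pow, inv_pow, ← pow_mul, ← pow_mul, mul_comm q, mul_comm p, pow_mul, pow_mul,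
          hprim.pow_eq_one, one_pow, one_pow, inv_one, mul_one]
      rw [geom_sum_eq hne, hNp, sub_self, zero_div, mul_zero]
    · intro h; exact absurd hp h
  have hnorm : (N:ℝ) * (‖c p‖ * Real.exp (p * x)) ≤ N * M := by
    have h1 : ‖(N:ℂ) * (c p * Complex.exp (p * x))‖ = N * (‖c p‖ * Real.exp (p * x)) := by
      rw [norm_mul, norm_mul, Complex.norm_natCast, Complex.norm_exp]
      congr 3
      simp
    rw [← h1, ← hsum]
    calc ‖∑ j ∈ range N, expSum c S (pt j) * ((ω ^ p)⁻¹) ^ j‖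
        ≤ ∑ j ∈ range N, M := by
          apply (norm_sum_le _ _).trans
          apply sum_le_sum
          intro j _
          rw [norm_mul, norm_pow, norm_inv, norm_pow, hωn, one_pow, inv_one, one_pow, mul_one]
          exact hb _ (hptre j)
      _ = N * M := by rw [sum_const, card_range, nsmul_eq_mul]
  have hNR : (0:ℝ) < N := by exact_mod_cast hN0
  exact le_of_mul_le_mul_left hnorm hNR

end Pool.Agent.MP_e061a3_an
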