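import Pool.Agent.MP_e061a3_an.Series

set_option autoImplicit false

/-!
# Sums of shifts under the two supplementary hypotheses
-/

namespace Pool.Agent.MP_e061a3_an

open Finset Filter Topology

lemma log_forty_le : Real.log 40 ≤ 4 := by
  rw [Real.log_le_iff_le_exp (by norm_num)]
  have h1 : (2.7182818283:ℝ) < Real.exp 1 := Real.exp_one_gt_d9
  have h2 : Real.exp 4 = Real.exp 1 ^ 4 := by
    rw [← Real.exp_nat_mul]; norm_num
  rw [h2]
  calc (40:ℝ) ≤ 2.7182818283 ^ 4 := by norm_num
    _ ≤ Real.exp 1 ^ 4 := pow_le_pow_left₀ (by norm_num) h1.le 4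

lemma log_two_le_one : Real.log 2 ≤ 1 := by
  have := Real.log_two_lt_d9
  linarith

lemma log_pow_two_le (k : ℕ) : Real.log ((2:ℝ) ^ k) ≤ k := by
  rw [Real.log_pow]
  have := log_two_le_one
  have hk : (0:ℝ) ≤ k := Nat.cast_nonneg k
  nlinarith

/-- Under the logarithmic condition the shifts are summable. -/
lemma summable_shift_of_log (p : ℕ → ℕ) (hp : StrictMono p) (hpos : ∀ n, 0 < p n)
    (hsum : Summable (fun n => 1 / (p n : ℝ)))
    (hlog : Summable (fun n : ℕ => Real.log ((p n : ℝ) / (n + 1)) / (p n : ℝ))) :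
    Summable (fun l => shiftD (dens p l)) := by
  -- the main part
  have hA : Summable (fun l => ∑ n ∈ idx p l,
      1 / (2:ℝ) ^ (l + 1) * Real.log (40 * 2 ^ (l + 1) / (n + 1))) := by
    apply summable_swap p hp _
      (fun n => 1 / (p n : ℝ) * (2 * (4 + Real.log ((p n : ℝ) / (n + 1))) + 4))
    · intro l n hn
      have h1 : n + 1 ≤ 2 ^ (l + 1) := (lt_card_idx p hp l n hn).trans (card_idx_le p l)
      have h1R : (n:ℝ) + 1 ≤ 2 ^ (l + 1) := by exact_mod_cast h1
      apply mul_nonneg (by positivity)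
      apply Real.log_nonneg
      rw [le_div_iff₀ (by positivity)]
      have : (0:ℝ) < 2 ^ (l + 1) := by positivity
      linarith
    · intro n L
      have hp0 : (0:ℝ) < p n := by exact_mod_cast hpos n
      have hnp : n + 1 ≤ p n := by
        have h0 : n < p n ∨ n = p n := by
          have := hp.le_apply (x := n)
          omega
        rcases h0 with h | h
        · exact h
        · exfalso
          -- p n = n forces p 0 = 0
          have h2 : ∀ k, k ≤ n → p (n - k) ≤ n - k := by
            intro k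
            induction k with
            | zero => intro _; simp [← h]
            | succ k ih =>
              intro hk
              have h3 := ih (by omega)
              have h4 : p (n - (k + 1)) < p (n - k) := hp (by omega)
              omega
          have h5 := h2 n (le_refl _)
          have h6 := hpos (n - n)
          omega
      have hnpR : (n:ℝ) + 1 ≤ p n := by exact_mod_cast hnp
      have hlog0 : 0 ≤ Real.log ((p n : ℝ) / (n + 1)) := by
        apply Real.log_nonneg
        rw [le_div_iff₀ (by positivity)]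
        linarith
      apply level_sum (p n) (hpos n) (4 + Real.log ((p n : ℝ) / (n + 1))) (by linarith)
      intro l k hlk
      have hb := two_pow_bounds (p n) (hpos n) k
      rw [← hlk] at hb
      have h1 : 1 / (2:ℝ) ^ (l + 1) ≤ 1 / (p n : ℝ) * (1 / 2) ^ k := by
        calc 1 / (2:ℝ) ^ (l + 1) ≤ 1 / ((p n : ℝ) * 2 ^ k) :=
              one_div_le_one_div_of_le (by positivity) hb.1
          _ = 1 / (p n : ℝ) * (1 / 2) ^ k := by
              rw [one_div_pow]; field_simp
      have h2 : Real.log (40 * 2 ^ (l + 1) / (n + 1))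
          ≤ 4 + Real.log ((p n : ℝ) / (n + 1)) + (k + 1) := by
        have h3 : (40:ℝ) * 2 ^ (l + 1) / (n + 1) ≤ 40 * ((p n : ℝ) / (n + 1)) * 2 ^ (k + 1) := by
          rw [div_le_iff₀ (by positivity)]
          calc (40:ℝ) * 2 ^ (l + 1) ≤ 40 * (p n * 2 ^ (k + 1)) :=
                mul_le_mul_of_nonneg_left hb.2 (by norm_num)
            _ = 40 * ((p n : ℝ) / (n + 1)) * 2 ^ (k + 1) * (n + 1) := by
                field_simp
        have h4 : (0:ℝ) < (p n : ℝ) / (n + 1) := by positivity
        calc Real.log (40 * 2 ^ (l + 1) / (n + 1))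
            ≤ Real.log (40 * ((p n : ℝ) / (n + 1)) * 2 ^ (k + 1)) :=
              Real.log_le_log (by positivity) h3
          _ = Real.log 40 + Real.log ((p n : ℝ) / (n + 1)) + Real.log (2 ^ (k + 1)) := by
              rw [Real.log_mul (by positivity) (by positivity), Real.log_mul (by norm_num) h4.ne']
          _ ≤ 4 + Real.log ((p n : ℝ) / (n + 1)) + (k + 1) := by
              have h5 := log_forty_le
              have h6 := log_pow_two_le (k + 1)
              push_cast at h6
              linarith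
      have h3 : 0 ≤ 4 + Real.log ((p n : ℝ) / (n + 1)) + (k + 1) := by positivity
      calc 1 / (2:ℝ) ^ (l + 1) * Real.log (40 * 2 ^ (l + 1) / (n + 1))
          ≤ 1 / (2:ℝ) ^ (l + 1) * (4 + Real.log ((p n : ℝ) / (n + 1)) + (k + 1)) :=
            mul_le_mul_of_nonneg_left h2 (by positivity)
        _ ≤ (1 / (p n : ℝ) * (1 / 2) ^ k) * (4 + Real.log ((p n : ℝ) / (n + 1)) + (k + 1)) :=
            mul_le_mul_of_nonneg_right h1 h3
        _ = _ := by ring
    · have h1 := (hsum.mul_right 12).add (hlog.mul_right 2)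
      refine h1.congr ?_
      intro n
      have hp0 : (p n : ℝ) ≠ 0 := by exact_mod_cast (hpos n).ne'
      field_simp
      ring
  -- the trivial part
  have hB : Summable (fun l : ℕ => ((l:ℝ) + 1) / 2 ^ (l + 1) * (4 + (l + 1))) := by
    have h2 := summable_pow_mul_geometric_of_norm_lt_one 2 (r := (1/2:ℝ)) (by norm_num)
    have h1 := summable_pow_mul_geometric_of_norm_lt_one 1 (r := (1/2:ℝ)) (by norm_num)
    have h3 := ((summable_nat_add_iff 1).mpr h2).add (((summable_nat_add_iff 1).mpr h1).mul_left 4)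
    refine h3.congr ?_
    intro l
    push_cast
    rw [one_div_pow]
    field_simp
    ring
  have hAB := (hA.add hB).mul_left 131
  refine Summable.of_nonneg_of_le (fun l => ?_) (fun l => ?_) hAB
  · exact (dens_pos p l).le.trans (shiftD_ge _ (dens_pos p l) (dens_le_one p l))
  · have hA0 : 0 ≤ ∑ n ∈ idx p l, 1 / (2:ℝ) ^ (l + 1) * Real.log (40 * 2 ^ (l + 1) / (n + 1)) := by
      apply sum_nonneg
      intro n hn
      rw [mem_idx p hp] at hn
      have h1 : n + 1 ≤ 2 ^ (l + 1) := (lt_card_idx p hp l n hn).trans (card_idx_le p l)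
      have h1R : (n:ℝ) + 1 ≤ 2 ^ (l + 1) := by exact_mod_cast h1
      apply mul_nonneg (by positivity)
      apply Real.log_nonneg
      rw [le_div_iff₀ (by positivity)]
      have : (0:ℝ) < 2 ^ (l + 1) := by positivity
      linarith
    have hB0 : (0:ℝ) ≤ ((l:ℝ) + 1) / 2 ^ (l + 1) * (4 + (l + 1)) := by positivity
    unfold shiftD
    rw [mul_assoc]
    apply mul_le_mul_of_nonneg_left _ (by norm_num)
    rcases le_total ((l:ℝ) + 1) ((idx p l).card : ℝ) with hc | hc
    · have hd : dens p l = ((idx p l).card : ℝ) / 2 ^ (l + 1) := by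
        unfold dens; rw [max_eq_left hc]
      have hcard0 : (0:ℝ) < ((idx p l).card : ℝ) := by
        have : (0:ℝ) < (l:ℝ) + 1 := by positivity
        linarith
      have h1 : dens p l * Real.log (40 / dens p l)
          ≤ ∑ n ∈ idx p l, 1 / (2:ℝ) ^ (l + 1) * Real.log (40 * 2 ^ (l + 1) / (n + 1)) := by
        rw [hd]
        have h2 : ((idx p l).card : ℝ) / 2 ^ (l + 1)
            * Real.log (40 / (((idx p l).card : ℝ) / 2 ^ (l + 1)))
            = ∑ n ∈ idx p l, 1 / (2:ℝ) ^ (l + 1)
              * Real.log (40 / (((idx p l).card : ℝ) / 2 ^ (l + 1))) := by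
          rw [sum_const, nsmul_eq_mul]; ring
        rw [h2]
        apply sum_le_sum
        intro n hn
        apply mul_le_mul_of_nonneg_left _ (by positivity)
        apply Real.log_le_log (by positivity)
        rw [mem_idx p hp] at hn
        have h3 : (n:ℝ) + 1 ≤ ((idx p l).card : ℝ) := by exact_mod_cast lt_card_idx p hp l n hn
        rw [div_div_eq_mul_div]
        apply div_le_div_of_nonneg_left (by positivity) (by positivity) h3
      linarith
    · have hd : dens p l = ((l:ℝ) + 1) / 2 ^ (l + 1) := by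
        unfold dens; rw [max_eq_right hc]
      have h1 : dens p l * Real.log (40 / dens p l) ≤ ((l:ℝ) + 1) / 2 ^ (l + 1) * (4 + (l + 1)) := by
        rw [hd]
        apply mul_le_mul_of_nonneg_left _ (by positivity)
        have h2 : 40 / (((l:ℝ) + 1) / 2 ^ (l + 1)) ≤ 40 * 2 ^ (l + 1) := by
          rw [div_div_eq_mul_div]
          apply div_le_self (by positivity)
          have : (0:ℝ) ≤ l := Nat.cast_nonneg l
          linarith
        calc Real.log (40 / (((l:ℝ) + 1) / 2 ^ (l + 1))) ≤ Real.log (40 * 2 ^ (l + 1)) :=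
              Real.log_le_log (by positivity) h2
          _ = Real.log 40 + Real.log (2 ^ (l + 1)) := Real.log_mul (by norm_num) (by positivity)
          _ ≤ 4 + (l + 1) := by
              have h5 := log_forty_le
              have h6 := log_pow_two_le (l + 1)
              push_cast at h6
              linarith
      linarith

lemma log_forty_div_le (δ : ℝ) (h0 : 0 < δ) : Real.log (40 / δ) ≤ 13 / Real.sqrt δ := by
  have hs : 0 < Real.sqrt δ := Real.sqrt_pos.mpr h0
  have h40 : Real.sqrt 40 ≤ 6.5 := by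
    rw [Real.sqrt_le_left (by norm_num)]; norm_num
  have h1 : Real.log (40 / δ) = 2 * Real.log (Real.sqrt (40 / δ)) := by
    rw [Real.log_sqrt (by positivity)]; ring
  rw [h1]
  have h2 := Real.log_le_sub_one_of_pos (x := Real.sqrt (40 / δ)) (by positivity)
  have h3 : Real.sqrt (40 / δ) = Real.sqrt 40 / Real.sqrt δ := Real.sqrt_div (by norm_num) δ
  have h4 : Real.sqrt 40 / Real.sqrt δ ≤ 6.5 / Real.sqrt δ := div_le_div_of_nonneg_right h40 hs.le
  have h5 : 13 / Real.sqrt δ = 2 * (6.5 / Real.sqrt δ) := by ring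
  rw [h5]
  linarith

lemma shiftD_split (l : ℕ) (δ : ℝ) (h0 : 0 < δ) :
    shiftD δ ≤ 524 * (δ * (1 + Real.log ((l:ℝ) + 1))) + 1703 * (1 / ((l:ℝ) + 1) ^ 2) := by
  have hl : (0:ℝ) < (l:ℝ) + 1 := by positivity
  have hl1 : (1:ℝ) ≤ (l:ℝ) + 1 := by
    have : (0:ℝ) ≤ l := Nat.cast_nonneg l
    linarith
  have hlog0 : 0 ≤ Real.log ((l:ℝ) + 1) := Real.log_nonneg hl1
  by_cases hc : 1 / ((l:ℝ) + 1) ^ 4 ≤ δ
  · have h1 : Real.log (40 / δ) ≤ 4 + 4 * Real.log ((l:ℝ) + 1) := by
      have h2 : 40 / δ ≤ 40 * ((l:ℝ) + 1) ^ 4 := by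
        rw [div_le_iff₀ h0]
        rw [div_le_iff₀ (by positivity)] at hc
        nlinarith
      calc Real.log (40 / δ) ≤ Real.log (40 * ((l:ℝ) + 1) ^ 4) :=
            Real.log_le_log (by positivity) h2
        _ = Real.log 40 + 4 * Real.log ((l:ℝ) + 1) := by
            rw [Real.log_mul (by norm_num) (by positivity), Real.log_pow]; norm_num
        _ ≤ _ := by have := log_forty_le; linarith
    have h3 : (0:ℝ) ≤ 1703 * (1 / ((l:ℝ) + 1) ^ 2) := by positivity
    unfold shiftD
    nlinarith
  · push Not at hc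
    have hs : 0 < Real.sqrt δ := Real.sqrt_pos.mpr h0
    have h1 : Real.sqrt δ ≤ 1 / ((l:ℝ) + 1) ^ 2 := by
      rw [Real.sqrt_le_left (by positivity)]
      refine hc.le.trans (le_of_eq ?_)
      rw [one_div_pow]; ring
    have h2 := log_forty_div_le δ h0
    have h3 : shiftD δ ≤ 1703 * Real.sqrt δ := by
      unfold shiftD
      calc 131 * δ * Real.log (40 / δ) ≤ 131 * δ * (13 / Real.sqrt δ) :=
            mul_le_mul_of_nonneg_left h2 (by positivity)
        _ = 1703 * (δ / Real.sqrt δ) := by ring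
        _ = 1703 * Real.sqrt δ := by rw [Real.div_sqrt]
    have h4 : (0:ℝ) ≤ 524 * (δ * (1 + Real.log ((l:ℝ) + 1))) := by positivity
    linarith

/-- Shifts sum up to `o(log J)` when the densities are summable. -/
lemma shift_sum_le (δ : ℕ → ℝ) (h0 : ∀ l, 0 < δ l) (hs : Summable δ) (ε : ℝ) (hε : 0 < ε) :
    ∃ C : ℝ, ∀ J : ℕ, ∑ i ∈ range (J + 1), shiftD (δ i) ≤ C + ε * Real.log ((J:ℝ) + 1) := by
  -- squares
  have hsq : Summable (fun l : ℕ => 1 / ((l:ℝ) + 1) ^ 2) := by
    have := (summable_nat_add_iff 1).mpr (Real.summable_one_div_nat_pow.mpr (by norm_num : 1 < 2))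
    refine this.congr ?_
    intro l; push_cast; rfl
  -- tail of δ
  obtain ⟨n₀, hn₀⟩ : ∃ n₀ : ℕ, ∑' k, δ (k + n₀) < ε / 524 := by
    have := (tendsto_sum_nat_add δ).eventually (gt_mem_nhds (show (0:ℝ) < ε / 524 by positivity))
    exact this.exists
  refine ⟨524 * (∑' l, δ l) + 524 * ∑ l ∈ range n₀, δ l * Real.log ((l:ℝ) + 1)
    + 1703 * ∑' l : ℕ, 1 / ((l:ℝ) + 1) ^ 2, ?_⟩
  intro J
  have hJ0 : 0 ≤ Real.log ((J:ℝ) + 1) := Real.log_nonneg (by
    have : (0:ℝ) ≤ J := Nat.cast_nonneg J
    linarith)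
  have h1 : ∑ i ∈ range (J + 1), shiftD (δ i)
      ≤ ∑ i ∈ range (J + 1), (524 * δ i + 524 * (δ i * Real.log ((i:ℝ) + 1))
        + 1703 * (1 / ((i:ℝ) + 1) ^ 2)) := by
    apply sum_le_sum
    intro i _
    have := shiftD_split i (δ i) (h0 i)
    linarith
  rw [sum_add_distrib, sum_add_distrib, ← mul_sum, ← mul_sum, ← mul_sum] at h1
  have h2 : ∑ i ∈ range (J + 1), δ i ≤ ∑' l, δ l := hs.sum_le_tsum _ (fun i _ => (h0 i).le)
  have h3 : ∑ i ∈ range (J + 1), 1 / ((i:ℝ) + 1) ^ 2 ≤ ∑' l : ℕ, 1 / ((l:ℝ) + 1) ^ 2 :=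
    hsq.sum_le_tsum _ (fun i _ => by positivity)
  have h4 : ∑ i ∈ range (J + 1), δ i * Real.log ((i:ℝ) + 1)
      ≤ ∑ l ∈ range n₀, δ l * Real.log ((l:ℝ) + 1) + ε / 524 * Real.log ((J:ℝ) + 1) := by
    have hnn : ∀ i : ℕ, 0 ≤ δ i * Real.log ((i:ℝ) + 1) := by
      intro i
      apply mul_nonneg (h0 i).le
      apply Real.log_nonneg
      have : (0:ℝ) ≤ i := Nat.cast_nonneg i
      linarith
    have h5 : range (J + 1) ⊆ range n₀ ∪ Ico n₀ (J + 1) := by
      intro i hi
      rw [mem_union, mem_range, mem_Ico]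
      rw [mem_range] at hi
      omega
    have hdisj : Disjoint (range n₀) (Ico n₀ (J + 1)) := by
      rw [Finset.disjoint_left]
      intro i hi hi2
      rw [mem_range] at hi
      rw [mem_Ico] at hi2
      omega
    calc ∑ i ∈ range (J + 1), δ i * Real.log ((i:ℝ) + 1)
        ≤ ∑ i ∈ range n₀ ∪ Ico n₀ (J + 1), δ i * Real.log ((i:ℝ) + 1) :=
          sum_le_sum_of_subset_of_nonneg h5 (fun i _ _ => hnn i)
      _ = ∑ i ∈ range n₀, δ i * Real.log ((i:ℝ) + 1)
          + ∑ i ∈ Ico n₀ (J + 1), δ i * Real.log ((i:ℝ) + 1) := sum_union hdisj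
      _ ≤ ∑ l ∈ range n₀, δ l * Real.log ((l:ℝ) + 1) + ε / 524 * Real.log ((J:ℝ) + 1) := by
          have h6 : ∑ i ∈ Ico n₀ (J + 1), δ i * Real.log ((i:ℝ) + 1)
              ≤ (∑ i ∈ Ico n₀ (J + 1), δ i) * Real.log ((J:ℝ) + 1) := by
            rw [sum_mul]
            apply sum_le_sum
            intro i hi
            apply mul_le_mul_of_nonneg_left _ (h0 i).le
            rw [mem_Ico] at hi
            apply Real.log_le_log (by positivity)
            have : (i:ℝ) ≤ J := by exact_mod_cast (by omega : i ≤ J)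
            linarith
          have h7 : ∑ i ∈ Ico n₀ (J + 1), δ i ≤ ε / 524 := by
            rw [sum_Ico_eq_sum_range]
            refine le_trans ?_ hn₀.le
            have hsh := (summable_nat_add_iff n₀).mpr hs
            refine le_trans (le_of_eq ?_) (hsh.sum_le_tsum (range (J + 1 - n₀))
              (fun i _ => (h0 _).le))
            apply sum_congr rfl
            intro k _
            rw [add_comm]
          have := mul_le_mul_of_nonneg_right h7 hJ0
          linarith
  have h8 : 524 * (ε / 524 * Real.log ((J:ℝ) + 1)) = ε * Real.log ((J:ℝ) + 1) := by ring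
  nlinarith

end Pool.Agent.MP_e061a3_an
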