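import Pool.Agent.MP_e061a3_an.ExpSum

set_option autoImplicit false

/-!
# Elimination of dyadic frequency blocks along a curve
-/

namespace Pool.Agent.MP_e061a3_an

open Finset

/-- Frequencies below `2^(l+1)` with nonzero coefficient. -/
noncomputable def SL (c : ℕ → ℂ) (l : ℕ) : Finset ℕ := by
  classical
  exact (range (2 ^ (l + 1))).filter (fun p => c p ≠ 0)

lemma mem_SL (c : ℕ → ℂ) (l p : ℕ) : p ∈ SL c l ↔ p < 2 ^ (l + 1) ∧ c p ≠ 0 := by
  classical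
  unfold SL
  simp [mem_filter, mem_range]

lemma SL_subset_succ (c : ℕ → ℂ) (l : ℕ) : SL c l ⊆ SL c (l + 1) := by
  intro p hp
  rw [mem_SL] at hp ⊢
  refine ⟨hp.1.trans ?_, hp.2⟩
  exact Nat.pow_lt_pow_right (by norm_num) (by omega)

/-- A subset of the (logarithmic) plane which meets, for every `x ≥ x₀`, all circles of radius
`ρ ≤ 1` about some point of abscissa `x`. -/
def Reaches (G : Set ℂ) (x₀ : ℝ) : Prop :=
  ∀ x : ℝ, x₀ ≤ x → ∃ z₀ : ℂ, z₀.re = x ∧ ∀ ρ : ℝ, 0 ≤ ρ → ρ ≤ 1 → ∃ w ∈ G, ‖w - z₀‖ = ρ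

/-- The shift used at a level of density `δ`. -/
noncomputable def shiftD (δ : ℝ) : ℝ := 131 * δ * Real.log (40 / δ)

lemma log_forty_div (δ : ℝ) (h0 : 0 < δ) (h1 : δ ≤ 1) : 3.6 ≤ Real.log (40 / δ) := by
  have h40 : Real.exp 3.6 ≤ 40 := by
    have h2 : Real.exp 1 ≤ 2.7182818286 := Real.exp_one_lt_d9.le
    have h3 : Real.exp 3.6 ^ 5 = Real.exp 1 ^ 18 := by
      rw [← Real.exp_nat_mul, ← Real.exp_nat_mul]; norm_num
    have h4 : Real.exp 3.6 ^ 5 ≤ (40:ℝ) ^ 5 := by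
      rw [h3]
      calc Real.exp 1 ^ 18 ≤ 2.7182818286 ^ 18 := pow_le_pow_left₀ (Real.exp_pos 1).le h2 18
        _ ≤ 40 ^ 5 := by norm_num
    exact le_of_pow_le_pow_left₀ (by norm_num) (by norm_num) h4
  rw [Real.le_log_iff_exp_le (by positivity)]
  refine h40.trans ?_
  rw [le_div_iff₀ h0]
  linarith

lemma shiftD_ge (δ : ℝ) (h0 : 0 < δ) (h1 : δ ≤ 1) : δ ≤ shiftD δ := by
  have := log_forty_div δ h0 h1
  unfold shiftD
  nlinarith

/-- Coefficient bound from the smallness on the curve. -/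
theorem coeff_of_curve (c : ℕ → ℂ) (G : Set ℂ) (x₀ : ℝ) (hG : Reaches G x₀) (l : ℕ) (x M δ : ℝ)
    (hM : 0 ≤ M) (hδ0 : 0 < δ) (hδ1 : δ ≤ 1) (hcard : ((SL c l).card : ℝ) ≤ 2 ^ (l + 1) * δ)
    (hx : x₀ ≤ x - δ) (hb : ∀ w ∈ G, w.re ≤ x → ‖expSum c (SL c l) w‖ ≤ M) (p : ℕ)
    (hp : p ∈ SL c l) :
    ‖c p‖ * Real.exp (p * (x - δ))
      ≤ Real.exp (2 ^ (l + 1) * δ * (Real.log (40 / δ) + 200) + 13) * M := by
  obtain ⟨z₀, hz₀, hρ⟩ := hG (x - δ) hx
  set P : ℝ := 2 ^ (l + 1) with hPdef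
  have hP0 : 0 ≤ P := by positivity
  have hP : ∀ q ∈ SL c l, (q:ℝ) ≤ P := by
    intro q hq
    rw [mem_SL] at hq
    have : (q:ℝ) ≤ ((2 ^ (l + 1) : ℕ) : ℝ) := by exact_mod_cast hq.1.le
    rw [hPdef]
    push_cast at this
    exact this
  set N : ℝ := 2 ^ (l + 1) * δ with hN
  have hN0 : 0 ≤ N := by positivity
  -- local bound
  have hloc : ∀ u, ‖u - z₀‖ ≤ δ → ‖expSum c (SL c l) u‖ ≤ Real.exp (200 * N + 13) * M := by
    intro u hu
    have h := expSum_remez c (SL c l) P hP hP0 z₀ δ hδ0 M hM (fun ρ h0 h1 => by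
      obtain ⟨w, hw, hwρ⟩ := hρ ρ h0 (h1.trans hδ1)
      refine ⟨w, hwρ, hb w hw ?_⟩
      have h2 : w.re - z₀.re ≤ ‖w - z₀‖ := by
        rw [← Complex.sub_re]
        exact (le_abs_self _).trans (Complex.abs_re_le_norm _)
      rw [hz₀, hwρ] at h2
      linarith) u hu
    refine h.trans ?_
    apply mul_le_mul_of_nonneg_right _ hM
    apply Real.exp_le_exp.mpr
    have : P * δ = N := rfl
    rw [this]
    linarith
  -- global bound on the line
  have hglob : ∀ w : ℂ, w.re = x - δ → ‖expSum c (SL c l) w‖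
      ≤ Real.exp (N * (Real.log (40 / δ) + 200) + 13) * M := by
    intro w hw
    have h := expSum_vertical c (SL c l) z₀ δ hδ0 hδ1 (Real.exp (200 * N + 13) * M)
      (by positivity) hloc w (by rw [hw, hz₀])
    refine h.trans ?_
    rw [← mul_assoc]
    apply mul_le_mul_of_nonneg_right _ hM
    have h40 : (0:ℝ) < 40 / δ := by positivity
    have hlog : 0 ≤ Real.log (40 / δ) := by
      have := log_forty_div δ hδ0 hδ1
      linarith
    have h1 : (40 / δ) ^ (SL c l).card ≤ Real.exp (N * Real.log (40 / δ)) := by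
      calc (40 / δ) ^ (SL c l).card = Real.exp ((SL c l).card * Real.log (40 / δ)) := by
            rw [Real.exp_nat_mul, Real.exp_log h40]
        _ ≤ Real.exp (N * Real.log (40 / δ)) := by
            apply Real.exp_le_exp.mpr
            exact mul_le_mul_of_nonneg_right hcard hlog
    calc (40 / δ) ^ (SL c l).card * Real.exp (200 * N + 13)
        ≤ Real.exp (N * Real.log (40 / δ)) * Real.exp (200 * N + 13) :=
          mul_le_mul_of_nonneg_right h1 (Real.exp_pos _).le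
      _ = Real.exp (N * (Real.log (40 / δ) + 200) + 13) := by
          rw [← Real.exp_add]; congr 1; ring
  exact expSum_coeff c (SL c l) (x - δ) _ hglob p hp

/-- One step: the top dyadic block is negligible after the shift `shiftD δ`. -/
theorem step (c : ℕ → ℂ) (G : Set ℂ) (x₀ : ℝ) (hG : Reaches G x₀) (l : ℕ) (x M δ : ℝ)
    (hM : 0 ≤ M) (hδ0 : 0 < δ) (hδ1 : δ ≤ 1)
    (hcard : ((SL c (l + 1)).card : ℝ) ≤ 2 ^ (l + 2) * δ) (hN1 : 1 ≤ 2 ^ (l + 2) * δ)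
    (hx : x₀ ≤ x - δ) (hb : ∀ w ∈ G, w.re ≤ x → ‖expSum c (SL c (l + 1)) w‖ ≤ M) :
    ∀ w ∈ G, w.re ≤ x - shiftD δ →
      ‖expSum c (SL c l) w‖ ≤ (1 + Real.exp (-(2 ^ (l + 2) * δ))) * M := by
  intro w hw hwre
  set N : ℝ := 2 ^ (l + 2) * δ with hN
  set Lg := Real.log (40 / δ) with hLg
  have hLg1 : 3.6 ≤ Lg := log_forty_div δ hδ0 hδ1
  -- decomposition
  have hdec : expSum c (SL c l) w = expSum c (SL c (l + 1)) w
      - ∑ p ∈ SL c (l + 1) \ SL c l, c p * Complex.exp (p * w) := by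
    unfold expSum
    rw [← sum_sdiff (SL_subset_succ c l)]
    ring
  have hw1 : ‖expSum c (SL c (l + 1)) w‖ ≤ M := by
    apply hb w hw
    have := shiftD_ge δ hδ0 hδ1
    linarith
  have hcoef := coeff_of_curve c G x₀ hG (l + 1) x M δ hM hδ0 hδ1 hcard hx hb
  have hblock : ‖∑ p ∈ SL c (l + 1) \ SL c l, c p * Complex.exp (p * w)‖
      ≤ Real.exp (-N) * M := by
    have hterm : ∀ p ∈ SL c (l + 1) \ SL c l, ‖c p * Complex.exp (p * w)‖
        ≤ Real.exp (N * (Lg + 200) + 13) * M * Real.exp (-(65 * N * Lg)) := by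
      intro p hp
      rw [mem_sdiff] at hp
      have hp1 := hp.1
      have hp2 : 2 ^ (l + 1) ≤ p := by
        by_contra hlt
        push Not at hlt
        exact hp.2 ((mem_SL c l p).mpr ⟨hlt, ((mem_SL c (l + 1) p).mp hp1).2⟩)
      have hpR : (2:ℝ) ^ (l + 1) ≤ p := by exact_mod_cast hp2
      rw [norm_mul, Complex.norm_exp]
      have e1 : ((p:ℂ) * w).re = p * w.re := by simp
      rw [e1]
      have h1 := hcoef p hp1
      have h2 : (p:ℝ) * w.re ≤ p * (x - δ) + -(65 * N * Lg) := by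
        have h3 : w.re ≤ (x - δ) - 130 * δ * Lg := by
          have h4 : shiftD δ = 131 * δ * Lg := rfl
          rw [h4] at hwre
          nlinarith
        have h5 : 65 * N * Lg ≤ p * (130 * δ * Lg) := by
          have h6 : 65 * N * Lg = 2 ^ (l + 1) * (130 * δ * Lg) := by
            rw [hN]; ring
          rw [h6]
          apply mul_le_mul_of_nonneg_right hpR
          have : 0 ≤ Lg := by linarith
          positivity
        have hp0 : (0:ℝ) ≤ p := Nat.cast_nonneg p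
        nlinarith
      calc ‖c p‖ * Real.exp (p * w.re)
          ≤ ‖c p‖ * (Real.exp (p * (x - δ)) * Real.exp (-(65 * N * Lg))) := by
            apply mul_le_mul_of_nonneg_left _ (norm_nonneg _)
            rw [← Real.exp_add]
            exact Real.exp_le_exp.mpr h2
        _ = (‖c p‖ * Real.exp (p * (x - δ))) * Real.exp (-(65 * N * Lg)) := by ring
        _ ≤ _ := mul_le_mul_of_nonneg_right h1 (Real.exp_pos _).le
    calc ‖∑ p ∈ SL c (l + 1) \ SL c l, c p * Complex.exp (p * w)‖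
        ≤ ∑ p ∈ SL c (l + 1) \ SL c l,
            Real.exp (N * (Lg + 200) + 13) * M * Real.exp (-(65 * N * Lg)) :=
          (norm_sum_le _ _).trans (sum_le_sum hterm)
      _ = (SL c (l + 1) \ SL c l).card
            * (Real.exp (N * (Lg + 200) + 13) * M * Real.exp (-(65 * N * Lg))) := by
          rw [sum_const, nsmul_eq_mul]
      _ ≤ Real.exp N * (Real.exp (N * (Lg + 200) + 13) * M * Real.exp (-(65 * N * Lg))) := by
          apply mul_le_mul_of_nonneg_right _ (by positivity)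
          have h7 : ((SL c (l + 1) \ SL c l).card : ℝ) ≤ N := by
            refine le_trans ?_ hcard
            exact_mod_cast card_le_card sdiff_subset
          have h8 := Real.add_one_le_exp N
          linarith
      _ = Real.exp (N + (N * (Lg + 200) + 13) + -(65 * N * Lg)) * M := by
          have e2 : Real.exp (N + (N * (Lg + 200) + 13) + -(65 * N * Lg))
              = Real.exp N * Real.exp (N * (Lg + 200) + 13) * Real.exp (-(65 * N * Lg)) := by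
            rw [← Real.exp_add, ← Real.exp_add]
          rw [e2]; ring
      _ ≤ Real.exp (-N) * M := by
          apply mul_le_mul_of_nonneg_right _ hM
          apply Real.exp_le_exp.mpr
          nlinarith
  rw [hdec]
  calc ‖expSum c (SL c (l + 1)) w - ∑ p ∈ SL c (l + 1) \ SL c l, c p * Complex.exp (p * w)‖
      ≤ M + Real.exp (-N) * M := (norm_sub_le _ _).trans (add_le_add hw1 hblock)
    _ = (1 + Real.exp (-N)) * M := by ring

/-- Iteration of the step from level `l₀ + k` down to level `l₀`. -/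
theorem iterate (c : ℕ → ℂ) (G : Set ℂ) (x₀ : ℝ) (hG : Reaches G x₀) (δ : ℕ → ℝ)
    (hδ0 : ∀ l, 0 < δ l) (hδ1 : ∀ l, δ l ≤ 1)
    (hcard : ∀ l, ((SL c l).card : ℝ) ≤ 2 ^ (l + 1) * δ l)
    (hN : ∀ l : ℕ, ((l:ℝ) + 1) ≤ 2 ^ (l + 1) * δ l) (l₀ : ℕ) :
    ∀ (k : ℕ) (x M : ℝ), 0 ≤ M →
      x₀ ≤ x - ∑ i ∈ Ico (l₀ + 1) (l₀ + k + 1), shiftD (δ i) →
      (∀ w ∈ G, w.re ≤ x → ‖expSum c (SL c (l₀ + k)) w‖ ≤ M) →
      ∀ w ∈ G, w.re ≤ x - ∑ i ∈ Ico (l₀ + 1) (l₀ + k + 1), shiftD (δ i) →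
        ‖expSum c (SL c l₀) w‖ ≤ Real.exp (∑ i ∈ Ico (l₀ + 1) (l₀ + k + 1), Real.exp (-((i:ℝ) + 1))) * M := by
  intro k
  induction k with
  | zero =>
    intro x M hM _ hb w hw hwre
    simp only [add_zero, Ico_self, sum_empty, sub_zero, Real.exp_zero, one_mul] at hwre ⊢
    exact hb w hw hwre
  | succ k ih =>
    intro x M hM hx hb w hw hwre
    have hshift : ∀ i, 0 ≤ shiftD (δ i) := fun i =>
      (hδ0 i).le.trans (shiftD_ge _ (hδ0 i) (hδ1 i))
    have hsum : ∑ i ∈ Ico (l₀ + 1) (l₀ + (k + 1) + 1), shiftD (δ i)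
        = ∑ i ∈ Ico (l₀ + 1) (l₀ + k + 1), shiftD (δ i) + shiftD (δ (l₀ + k + 1)) := by
      rw [show l₀ + (k + 1) + 1 = (l₀ + k + 1) + 1 by ring]
      rw [sum_Ico_succ_top (by omega)]
    have hsum0 : 0 ≤ ∑ i ∈ Ico (l₀ + 1) (l₀ + k + 1), shiftD (δ i) :=
      sum_nonneg (fun i _ => hshift i)
    have hsum2 : ∑ i ∈ Ico (l₀ + 1) (l₀ + (k + 1) + 1), Real.exp (-((i:ℝ) + 1))
        = ∑ i ∈ Ico (l₀ + 1) (l₀ + k + 1), Real.exp (-((i:ℝ) + 1))
          + Real.exp (-(((l₀ + k + 1 : ℕ) : ℝ) + 1)) := by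
      rw [show l₀ + (k + 1) + 1 = (l₀ + k + 1) + 1 by ring]
      rw [sum_Ico_succ_top (by omega)]
    have hdl := shiftD_ge _ (hδ0 (l₀ + k + 1)) (hδ1 (l₀ + k + 1))
    have hNl := hN (l₀ + k + 1)
    have hstep := step c G x₀ hG (l₀ + k) x M (δ (l₀ + k + 1)) hM (hδ0 _) (hδ1 _)
      (hcard (l₀ + k + 1)) (by
        have : (0:ℝ) ≤ ((l₀ + k + 1 : ℕ) : ℝ) := Nat.cast_nonneg _
        have h2 : (2:ℝ) ^ (l₀ + k + 1 + 1) = 2 ^ (l₀ + k + 2) := by ring
        rw [h2] at hNl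
        linarith) (by rw [hsum] at hx; linarith) hb
    have h2 := ih (x - shiftD (δ (l₀ + k + 1)))
      ((1 + Real.exp (-(2 ^ (l₀ + k + 2) * δ (l₀ + k + 1)))) * M) (by positivity)
      (by rw [hsum] at hx; linarith) hstep w hw (by rw [hsum] at hwre; linarith)
    refine h2.trans ?_
    rw [hsum2, Real.exp_add, mul_assoc]
    apply mul_le_mul_of_nonneg_left _ (Real.exp_pos _).le
    apply mul_le_mul_of_nonneg_right _ hM
    have h3 : Real.exp (-(2 ^ (l₀ + k + 2) * δ (l₀ + k + 1)))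
        ≤ Real.exp (-(((l₀ + k + 1 : ℕ) : ℝ) + 1)) := by
      apply Real.exp_le_exp.mpr
      have h4 : (2:ℝ) ^ (l₀ + k + 1 + 1) = 2 ^ (l₀ + k + 2) := by ring
      rw [h4] at hNl
      linarith
    have h5 := Real.add_one_le_exp (Real.exp (-(((l₀ + k + 1 : ℕ) : ℝ) + 1)))
    linarith

lemma sum_exp_le (a b : ℕ) : ∑ i ∈ Ico a b, Real.exp (-((i:ℝ) + 1)) ≤ 1 := by
  have h1 : ∀ i ∈ Ico a b, Real.exp (-((i:ℝ) + 1)) ≤ (1 / 2 : ℝ) ^ (i + 1) := by
    intro i _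
    have h2 : Real.exp (-((i:ℝ) + 1)) = (Real.exp 1)⁻¹ ^ (i + 1) := by
      rw [inv_pow, ← Real.exp_nat_mul, ← Real.exp_neg]
      congr 1
      push_cast
      ring
    rw [h2]
    apply pow_le_pow_left₀ (by positivity)
    rw [one_div]
    apply inv_anti₀ (by norm_num)
    have := Real.exp_one_gt_d9
    linarith
  have h3 : HasSum (fun i : ℕ => (1 / 2 : ℝ) ^ (i + 1)) 1 := by
    have h4 : HasSum (fun i : ℕ => (1 / 2 : ℝ) ^ i * (1 / 2)) (2 * (1 / 2)) :=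
      hasSum_geometric_two.mul_right _
    have h5 : (fun i : ℕ => (1 / 2 : ℝ) ^ (i + 1)) = fun i : ℕ => (1 / 2 : ℝ) ^ i * (1 / 2) := by
      funext i; rw [pow_succ]
    rw [h5]
    convert h4 using 1
    norm_num
  calc ∑ i ∈ Ico a b, Real.exp (-((i:ℝ) + 1)) ≤ ∑ i ∈ Ico a b, (1 / 2 : ℝ) ^ (i + 1) :=
        sum_le_sum h1
    _ ≤ 1 := sum_le_hasSum _ (fun i _ => by positivity) h3

/-- Main inequality: boundedness at level `J` up to abscissa `x` forces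
`x ≤ C + ∑_{1 ≤ i ≤ J} shiftD (δ i)`, with `C` independent of `x` and `J`. -/
theorem main_inequality (c : ℕ → ℂ) (G : Set ℂ) (x₀ : ℝ) (hG : Reaches G x₀) (δ : ℕ → ℝ)
    (hδ0 : ∀ l, 0 < δ l) (hδ1 : ∀ l, δ l ≤ 1)
    (hcard : ∀ l, ((SL c l).card : ℝ) ≤ 2 ^ (l + 1) * δ l)
    (hN : ∀ l : ℕ, ((l:ℝ) + 1) ≤ 2 ^ (l + 1) * δ l) (M : ℝ) (hM : 0 ≤ M)
    (p₀ : ℕ) (hp₀ : 1 ≤ p₀) (hcp₀ : c p₀ ≠ 0) :
    ∃ C : ℝ, ∀ (x : ℝ) (J : ℕ), p₀ ≤ J → (∀ w ∈ G, w.re ≤ x → ‖expSum c (SL c J) w‖ ≤ M) →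
      x ≤ C + ∑ i ∈ range (J + 1), shiftD (δ i) := by
  set l₀ := p₀ with hl₀
  have hpl : p₀ ∈ SL c l₀ := by
    rw [mem_SL]
    refine ⟨?_, hcp₀⟩
    calc p₀ < 2 ^ p₀ := Nat.lt_two_pow_self
      _ ≤ 2 ^ (p₀ + 1) := Nat.pow_le_pow_right (by norm_num) (Nat.le_succ _)
  set B : ℝ := Real.exp (2 ^ (l₀ + 1) * δ l₀ * (Real.log (40 / δ l₀) + 200) + 13)
    * (Real.exp 1 * M) with hB
  have hB0 : 0 ≤ B := by positivity
  have hc0 : 0 < ‖c p₀‖ := norm_pos_iff.mpr hcp₀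
  refine ⟨|x₀| + 1 + B / ‖c p₀‖, ?_⟩
  intro x J hJ hb
  obtain ⟨k, rfl⟩ : ∃ k, J = l₀ + k := ⟨J - l₀, by omega⟩
  have hshift : ∀ i, 0 ≤ shiftD (δ i) := fun i =>
    (hδ0 i).le.trans (shiftD_ge _ (hδ0 i) (hδ1 i))
  set Sg := ∑ i ∈ Ico (l₀ + 1) (l₀ + k + 1), shiftD (δ i) with hSg
  have hSgle : Sg ≤ ∑ i ∈ range (l₀ + k + 1), shiftD (δ i) := by
    rw [hSg]
    apply sum_le_sum_of_subset_of_nonneg
    · intro i hi
      rw [mem_Ico] at hi
      exact mem_range.mpr hi.2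
    · intro i _ _
      exact hshift i
  have hdiv0 : 0 ≤ B / ‖c p₀‖ := by positivity
  by_cases hcase : x₀ ≤ x - Sg - δ l₀
  · have hit := iterate c G x₀ hG δ hδ0 hδ1 hcard hN l₀ k x M hM
      (by have := (hδ0 l₀).le; linarith) hb
    have hit2 : ∀ w ∈ G, w.re ≤ x - Sg → ‖expSum c (SL c l₀) w‖ ≤ Real.exp 1 * M := by
      intro w hw hwre
      refine (hit w hw hwre).trans ?_
      apply mul_le_mul_of_nonneg_right _ hM
      exact Real.exp_le_exp.mpr (sum_exp_le _ _)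
    have hco := coeff_of_curve c G x₀ hG l₀ (x - Sg) (Real.exp 1 * M) (δ l₀) (by positivity)
      (hδ0 l₀) (hδ1 l₀) (hcard l₀) hcase hit2 p₀ hpl
    rw [← hB] at hco
    have h1 : Real.exp (p₀ * (x - Sg - δ l₀)) ≤ B / ‖c p₀‖ := by
      rw [le_div_iff₀ hc0]
      linarith
    have h2 := Real.add_one_le_exp ((p₀:ℝ) * (x - Sg - δ l₀))
    have hpR : (1:ℝ) ≤ p₀ := by exact_mod_cast hp₀
    have h3 : x - Sg - δ l₀ ≤ B / ‖c p₀‖ := by
      by_cases hneg : x - Sg - δ l₀ ≤ 0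
      · linarith
      · push Not at hneg
        nlinarith
    have := hδ1 l₀
    have := abs_nonneg x₀
    linarith
  · push Not at hcase
    have := hδ1 l₀
    have := le_abs_self x₀
    linarith

end Pool.Agent.MP_e061a3_an
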