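import Pool.Agent.MP_e061a3_an.Growth

set_option autoImplicit false

/-!
# Unboundedness on curves under the logarithmic gap condition or finite lower hyper-order
-/

namespace Pool.Agent.MP_e061a3_an

open Finset Filter Topology

/-- Cauchy estimate through truncations. -/
lemma cauchy_bound (c : ℕ → ℂ) (hs : ∀ z : ℂ, Summable (fun m => c m * z ^ m)) (x B : ℝ)
    (hB : ∀ w : ℂ, w.re = x → ‖∑' m, c m * (Complex.exp w) ^ m‖ ≤ B) (q : ℕ) (hB0 : 0 ≤ B) :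
    ‖c q‖ * Real.exp (q * x) ≤ B := by
  by_cases hq : c q = 0
  · rw [hq, norm_zero, zero_mul]; exact hB0
  have h1 : ∀ J : ℕ, q ≤ J → ‖c q‖ * Real.exp (q * x) ≤ B + tailT c x J := by
    intro J hJ
    apply expSum_coeff c (SL c J) x (B + tailT c x J)
    · intro w hw
      have h2 := truncation c hs x J w hw.le
      have h3 := hB w hw
      have h4 : expSum c (SL c J) w = (∑' m, c m * (Complex.exp w) ^ m)
          - ((∑' m, c m * (Complex.exp w) ^ m) - expSum c (SL c J) w) := by ring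
      rw [h4]
      exact (norm_sub_le _ _).trans (add_le_add h3 h2)
    · rw [mem_SL]
      refine ⟨?_, hq⟩
      calc q < 2 ^ q := Nat.lt_two_pow_self
        _ ≤ 2 ^ (J + 1) := Nat.pow_le_pow_right (by norm_num) (by omega)
  have h5 : Tendsto (fun J : ℕ => B + tailT c x J) atTop (𝓝 (B + 0)) :=
    (tendsto_tailT c x).const_add B
  rw [add_zero] at h5
  refine ge_of_tendsto h5 ?_
  filter_upwards [eventually_ge_atTop q] with J hJ
  exact h1 J hJ

/-- Level bounds on the lifted curve. -/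
lemma level_bound (p : ℕ → ℕ) (hp : StrictMono p) (a : ℕ → ℂ)
    (hs : ∀ z : ℂ, Summable (fun n => a n * z ^ (p n))) (γ : ℝ → ℂ) (M : ℝ)
    (hM : ∀ t : ℝ, 0 ≤ t → ‖∑' n, a n * (γ t) ^ (p n)‖ ≤ M) (x : ℝ) (J : ℕ)
    (hJ : tailT (coef p a) x J ≤ 1) :
    ∀ w ∈ lifts γ, w.re ≤ x → ‖expSum (coef p a) (SL (coef p a) J) w‖ ≤ M + 1 := by
  rintro w ⟨t, ht, hw⟩ hwx
  have hs' := summable_coef p hp a hs
  have h2 := truncation (coef p a) hs' x J w hwx
  have h3 := hM t ht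
  rw [← tsum_coef p hp, ← hw] at h3
  have h4 : expSum (coef p a) (SL (coef p a) J) w = (∑' m, coef p a m * (Complex.exp w) ^ m)
      - ((∑' m, coef p a m * (Complex.exp w) ^ m) - expSum (coef p a) (SL (coef p a) J) w) := by
    ring
  rw [h4]
  have := norm_sub_le (∑' m, coef p a m * (Complex.exp w) ^ m)
    ((∑' m, coef p a m * (Complex.exp w) ^ m) - expSum (coef p a) (SL (coef p a) J) w)
  linarith

/-- The abstract inequality for a gap series bounded on a curve. -/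
theorem curve_inequality (p : ℕ → ℕ) (hp : StrictMono p) (hpos : ∀ n, 0 < p n) (a : ℕ → ℂ)
    (hs : ∀ z : ℂ, Summable (fun n => a n * z ^ (p n))) (hne : ∃ n, a n ≠ 0)
    (γ : ℝ → ℂ) (hγ : ContinuousOn γ (Set.Ici 0))
    (hinf : Tendsto (fun t => ‖γ t‖) atTop atTop) (M : ℝ)
    (hM : ∀ t : ℝ, 0 ≤ t → ‖∑' n, a n * (γ t) ^ (p n)‖ ≤ M) :
    ∃ (C : ℝ) (J₀ : ℕ), ∀ (x : ℝ) (J : ℕ), J₀ ≤ J → tailT (coef p a) x J ≤ 1 →
      x ≤ C + ∑ i ∈ range (J + 1), shiftD (dens p i) := by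
  obtain ⟨n₀, hn₀⟩ := hne
  have hM0 : 0 ≤ M := (norm_nonneg _).trans (hM 0 (le_refl _))
  obtain ⟨C, hC⟩ := main_inequality (coef p a) (lifts γ) _ (reaches_lifts γ hγ hinf) (dens p)
    (dens_pos p) (dens_le_one p) (card_le_dens p hp a) (succ_le_dens p) (M + 1) (by linarith)
    (p n₀) (hpos n₀) (by rw [coef_apply p hp]; exact hn₀)
  refine ⟨C, p n₀, ?_⟩
  intro x J hJ hT
  exact hC x J hJ (level_bound p hp a hs γ M hM x J hT)

theorem unbounded_of_log (p : ℕ → ℕ) (hp : StrictMono p) (hpos : ∀ n, 0 < p n)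
    (hsum : Summable (fun n => 1 / (p n : ℝ))) (a : ℕ → ℂ)
    (hs : ∀ z : ℂ, Summable (fun n => a n * z ^ (p n))) (hne : ∃ n, a n ≠ 0)
    (hlog : Summable (fun n : ℕ => Real.log ((p n : ℝ) / (n + 1)) / (p n : ℝ)))
    (γ : ℝ → ℂ) (hγ : ContinuousOn γ (Set.Ici 0))
    (hinf : Tendsto (fun t => ‖γ t‖) atTop atTop) :
    ¬ ∃ M : ℝ, ∀ t : ℝ, 0 ≤ t → ‖∑' n, a n * (γ t) ^ (p n)‖ ≤ M := by
  rintro ⟨M, hM⟩
  obtain ⟨C, J₀, hC⟩ := curve_inequality p hp hpos a hs hne γ hγ hinf M hM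
  have hss := summable_shift_of_log p hp hpos hsum hlog
  set T := ∑' l, shiftD (dens p l) with hT
  have hnn : ∀ i, 0 ≤ shiftD (dens p i) := fun i =>
    (dens_pos p i).le.trans (shiftD_ge _ (dens_pos p i) (dens_le_one p i))
  set x := C + T + 1 with hx
  have h1 : ∀ᶠ J in atTop, tailT (coef p a) x J ≤ 1 := by
    have := (tendsto_tailT (coef p a) x).eventually (gt_mem_nhds (show (0:ℝ) < 1 by norm_num))
    filter_upwards [this] with J hJ using hJ.le
  obtain ⟨J, hJ1, hJ2⟩ := (h1.and (eventually_ge_atTop J₀)).exists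
  have h2 := hC x J hJ2 hJ1
  have h3 : ∑ i ∈ range (J + 1), shiftD (dens p i) ≤ T := hss.sum_le_tsum _ (fun i _ => hnn i)
  linarith

lemma tail_small (c : ℕ → ℂ) (hs : ∀ z : ℂ, Summable (fun m => c m * z ^ m)) (r : ℝ) (hr : 0 < r)
    (E : ℝ) (hE : ∀ z : ℂ, ‖z‖ = r → ‖∑' m, c m * z ^ m‖ ≤ Real.exp E) (J : ℕ)
    (hJ : E + 1 ≤ 2 ^ (J + 1)) : tailT c (Real.log r - 1) J ≤ 1 := by
  have hco : ∀ q : ℕ, ‖c q‖ * Real.exp (q * Real.log r) ≤ Real.exp E := by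
    intro q
    apply cauchy_bound c hs (Real.log r) (Real.exp E) _ q (Real.exp_pos _).le
    intro w hw
    apply hE
    rw [Complex.norm_exp, hw, Real.exp_log hr]
  set N := 2 ^ (J + 1) with hN
  have hgeo : HasSum (fun m : ℕ => Real.exp (E - N) * Real.exp (-1) ^ m)
      (Real.exp (E - N) * (1 - Real.exp (-1))⁻¹) := by
    apply HasSum.mul_left
    apply hasSum_geometric_of_lt_one (Real.exp_pos _).le
    rw [Real.exp_lt_one_iff]; norm_num
  have hterm : ∀ m : ℕ, ‖c (m + N)‖ * Real.exp (((m + N : ℕ) : ℝ) * (Real.log r - 1))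
      ≤ Real.exp (E - N) * Real.exp (-1) ^ m := by
    intro m
    have h1 := hco (m + N)
    have h2 : Real.exp (((m + N : ℕ) : ℝ) * (Real.log r - 1))
        = Real.exp (((m + N : ℕ) : ℝ) * Real.log r) * Real.exp (-((m + N : ℕ) : ℝ)) := by
      rw [← Real.exp_add]; congr 1; ring
    rw [h2, ← mul_assoc]
    have h3 : Real.exp (E - N) * Real.exp (-1) ^ m = Real.exp E * Real.exp (-((m + N : ℕ) : ℝ)) := by
      rw [← Real.exp_nat_mul, ← Real.exp_add, ← Real.exp_add]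
      congr 1
      push_cast
      ring
    rw [h3]
    exact mul_le_mul_of_nonneg_right h1 (Real.exp_pos _).le
  have hsum1 : Summable (fun m : ℕ => ‖c (m + N)‖
      * Real.exp (((m + N : ℕ) : ℝ) * (Real.log r - 1))) :=
    Summable.of_nonneg_of_le (fun m => by positivity) hterm hgeo.summable
  have h4 : tailT c (Real.log r - 1) J ≤ Real.exp (E - N) * (1 - Real.exp (-1))⁻¹ := by
    unfold tailT
    rw [← hgeo.tsum_eq]
    exact hsum1.tsum_le_tsum hterm hgeo.summable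
  refine h4.trans ?_
  have hNR : ((N:ℕ) : ℝ) = 2 ^ (J + 1) := by rw [hN]; push_cast; rfl
  have h5 : Real.exp (E - N) ≤ Real.exp (-1) := by
    apply Real.exp_le_exp.mpr
    rw [hNR]; linarith
  have h6 : Real.exp (-1) ≤ 1 / 2 := by
    rw [Real.exp_neg, one_div]
    apply inv_anti₀ (by norm_num)
    have := Real.exp_one_gt_d9
    linarith
  have h7 : (0:ℝ) < 1 - Real.exp (-1) := by linarith
  rw [← div_eq_mul_inv, div_le_one h7]
  linarith

theorem unbounded_of_hyper (p : ℕ → ℕ) (hp : StrictMono p) (hpos : ∀ n, 0 < p n)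
    (hsum : Summable (fun n => 1 / (p n : ℝ))) (a : ℕ → ℂ)
    (hs : ∀ z : ℂ, Summable (fun n => a n * z ^ (p n))) (hne : ∃ n, a n ≠ 0)
    (hhyp : ∃ C : ℕ, ∀ R : ℝ, ∃ r : ℝ, R ≤ r ∧ ∀ z : ℂ, ‖z‖ = r →
      ‖∑' n, a n * z ^ (p n)‖ ≤ Real.exp (Real.exp (r ^ C)))
    (γ : ℝ → ℂ) (hγ : ContinuousOn γ (Set.Ici 0))
    (hinf : Tendsto (fun t => ‖γ t‖) atTop atTop) :
    ¬ ∃ M : ℝ, ∀ t : ℝ, 0 ≤ t → ‖∑' n, a n * (γ t) ^ (p n)‖ ≤ M := by
  rintro ⟨M, hM⟩
  obtain ⟨C, J₀, hC⟩ := curve_inequality p hp hpos a hs hne γ hγ hinf M hM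
  obtain ⟨D, hD⟩ := hhyp
  obtain ⟨C₂, hC₂⟩ := shift_sum_le (dens p) (dens_pos p) (summable_dens p hp hpos hsum)
    (1 / (2 * ((D:ℝ) + 1))) (by positivity)
  set R : ℝ := max (max 1 (J₀ : ℝ)) (Real.exp (2 * (1 + |C| + |C₂| + 3) + 1)) with hR
  obtain ⟨r, hRr, hr⟩ := hD R
  have hr1 : 1 ≤ r := (le_max_left _ _).trans ((le_max_left _ _).trans hRr)
  have hrJ : (J₀:ℝ) ≤ r := (le_max_right _ _).trans ((le_max_left _ _).trans hRr)
  have hrexp : Real.exp (2 * (1 + |C| + |C₂| + 3) + 1) ≤ r := (le_max_right _ _).trans hRr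
  have hr0 : 0 < r := by linarith
  have hrC : 1 ≤ r ^ D := one_le_pow₀ hr1
  set J : ℕ := ⌈2 * r ^ D⌉₊ + ⌈r⌉₊ with hJdef
  have hJ₀ : J₀ ≤ J := by
    have h1 : (J₀:ℝ) ≤ ⌈r⌉₊ := hrJ.trans (Nat.le_ceil r)
    have h2 : J₀ ≤ ⌈r⌉₊ := by exact_mod_cast h1
    omega
  have hJ1 : 2 * r ^ D ≤ J := by
    have h1 := Nat.le_ceil (2 * r ^ D)
    have h2 : ((⌈2 * r ^ D⌉₊ : ℕ) : ℝ) ≤ J := by exact_mod_cast Nat.le_add_right _ _
    linarith
  have hJ2 : (J:ℝ) + 1 ≤ 8 * r ^ (D + 1) := by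
    have h1 : (⌈2 * r ^ D⌉₊ : ℝ) < 2 * r ^ D + 1 := Nat.ceil_lt_add_one (by positivity)
    have h2 : (⌈r⌉₊ : ℝ) < r + 1 := Nat.ceil_lt_add_one hr0.le
    have h3 : (J:ℝ) = ⌈2 * r ^ D⌉₊ + ⌈r⌉₊ := by rw [hJdef]; push_cast; rfl
    have h4 : r ^ D ≤ r ^ (D + 1) := pow_le_pow_right₀ hr1 (Nat.le_succ D)
    have h5 : r ≤ r ^ (D + 1) := by
      rw [pow_succ]
      nlinarith
    linarith
  have htail : tailT (coef p a) (Real.log r - 1) J ≤ 1 := by
    apply tail_small (coef p a) (summable_coef p hp a hs) r hr0 (Real.exp (r ^ D))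
    · intro z hz
      rw [tsum_coef p hp]
      exact hr z hz
    · -- exp(r^D) + 1 ≤ 2^(J+1)
      have h1 : Real.exp (r ^ D) ≤ 2 ^ J := by
        have h2 : r ^ D ≤ J * Real.log 2 := by
          have h3 : (1:ℝ) / 2 ≤ Real.log 2 := by
            have := Real.log_two_gt_d9
            linarith
          have hJ0 : (0:ℝ) ≤ J := Nat.cast_nonneg J
          nlinarith
        calc Real.exp (r ^ D) ≤ Real.exp (J * Real.log 2) := Real.exp_le_exp.mpr h2
          _ = 2 ^ J := by rw [Real.exp_nat_mul, Real.exp_log (by norm_num)]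
      have h2 : (1:ℝ) ≤ 2 ^ J := one_le_pow₀ (by norm_num)
      rw [pow_succ]
      linarith
  have h1 := hC (Real.log r - 1) J hJ₀ htail
  have h2 := hC₂ J
  have h3 : Real.log ((J:ℝ) + 1) ≤ 3 + ((D:ℝ) + 1) * Real.log r := by
    have h4 : Real.log ((J:ℝ) + 1) ≤ Real.log (8 * r ^ (D + 1)) :=
      Real.log_le_log (by positivity) hJ2
    rw [Real.log_mul (by norm_num) (by positivity), Real.log_pow] at h4
    have h5 : Real.log 8 ≤ 3 := by
      have h6 : (8:ℝ) = 2 ^ 3 := by norm_num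
      rw [h6]
      have := log_pow_two_le 3
      push_cast at this
      exact this
    push_cast at h4
    linarith
  have h4 : 1 / (2 * ((D:ℝ) + 1)) * Real.log ((J:ℝ) + 1) ≤ 3 / 2 + (1 / 2) * Real.log r := by
    have hD0 : (0:ℝ) < (D:ℝ) + 1 := by positivity
    have hD1 : (1:ℝ) ≤ (D:ℝ) + 1 := by
      have : (0:ℝ) ≤ D := Nat.cast_nonneg D
      linarith
    calc 1 / (2 * ((D:ℝ) + 1)) * Real.log ((J:ℝ) + 1)
        ≤ 1 / (2 * ((D:ℝ) + 1)) * (3 + ((D:ℝ) + 1) * Real.log r) :=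
          mul_le_mul_of_nonneg_left h3 (by positivity)
      _ = 3 / (2 * ((D:ℝ) + 1)) + (1 / 2) * Real.log r := by field_simp
      _ ≤ 3 / 2 + (1 / 2) * Real.log r := by
          have : 3 / (2 * ((D:ℝ) + 1)) ≤ 3 / 2 := by
            apply div_le_div_of_nonneg_left (by norm_num) (by norm_num)
            linarith
          linarith
  have h5 : 2 * (1 + |C| + |C₂| + 3) + 1 ≤ Real.log r := by
    rw [Real.le_log_iff_exp_le hr0]; exact hrexp
  have h6 := le_abs_self C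
  have h7 := le_abs_self C₂
  linarith

end Pool.Agent.MP_e061a3_an
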