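import Pool.Agent.MP_e061a3_an.Turan

set_option autoImplicit false

/-!
# A Remez type inequality on sets meeting all circles `|w - z₀| = ρ`, `0 ≤ ρ ≤ r`
-/

namespace Pool.Agent.MP_e061a3_an

open Finset Polynomial

lemma prod_erase_range (d i : ℕ) (hi : i < d) :
    ∏ j ∈ (range d).erase i, |(i:ℝ) - (j:ℝ)| = (i.factorial : ℝ) * ((d - 1 - i).factorial : ℝ) := by
  have hsplit : (range d).erase i = range i ∪ Ico (i + 1) d := by
    ext j
    simp only [mem_erase, mem_range, mem_union, mem_Ico]
    omega
  have hdisj : Disjoint (range i) (Ico (i + 1) d) := by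
    rw [Finset.disjoint_left]
    intro j h1 h2
    simp only [mem_range, mem_Ico] at h1 h2
    omega
  rw [hsplit, prod_union hdisj]
  congr 1
  · have h1 : ∏ j ∈ range i, |(i:ℝ) - (j:ℝ)| = ∏ j ∈ range i, (((i - 1 - j : ℕ) : ℝ) + 1) := by
      apply prod_congr rfl
      intro j hj
      have hj' := mem_range.mp hj
      have h2 : ((i - 1 - j : ℕ) : ℝ) = (i:ℝ) - 1 - j := by
        rw [Nat.cast_sub (by omega), Nat.cast_sub (by omega)]
        push_cast; ring
      rw [h2, abs_of_nonneg]
      · ring
      · have : (j:ℝ) < i := by exact_mod_cast hj'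
        linarith
    rw [h1, Finset.prod_range_reflect (fun j => ((j:ℝ) + 1)) i]
    rw [← Finset.prod_range_add_one_eq_factorial]
    push_cast
    rfl
  · rw [Finset.prod_Ico_eq_prod_range]
    have h1 : ∏ k ∈ range (d - (i + 1)), |(i:ℝ) - ((i + 1 + k : ℕ) : ℝ)|
        = ∏ k ∈ range (d - 1 - i), ((k:ℝ) + 1) := by
      have : d - (i + 1) = d - 1 - i := by omega
      rw [this]
      apply prod_congr rfl
      intro k _
      push_cast
      have : (i:ℝ) - (i + 1 + k) = -((k:ℝ) + 1) := by ring
      rw [this, abs_neg, abs_of_nonneg (by positivity)]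
    rw [h1, ← Finset.prod_range_add_one_eq_factorial]
    push_cast
    rfl

/-- Remez type inequality for polynomials, nodes with `|v i - v j| ≥ |i - j| r / d`. -/
theorem poly_remez (T : ℂ[X]) (d : ℕ) (hd : 0 < d) (hT : T.degree < d) (v : ℕ → ℂ) (r : ℝ)
    (hr : 0 < r) (hv : ∀ i < d, ∀ j < d, |(i:ℝ) - j| * (r / d) ≤ ‖v i - v j‖) (w : ℂ)
    (hw : ∀ j < d, ‖w - v j‖ ≤ 2 * r) (M : ℝ) (hM : 0 ≤ M) (hTM : ∀ i < d, ‖T.eval (v i)‖ ≤ M) :
    ‖T.eval w‖ ≤ 11 ^ d * M := by
  have hdR : (0:ℝ) < d := by exact_mod_cast hd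
  have hinj : Set.InjOn v (range d : Finset ℕ) := by
    intro i hi j hj hij
    by_contra hne
    have h1 := hv i (mem_range.mp hi) j (mem_range.mp hj)
    rw [hij, sub_self, norm_zero] at h1
    have h2 : 0 < |(i:ℝ) - j| := by
      rw [abs_pos, sub_ne_zero]
      exact_mod_cast hne
    have : 0 < |(i:ℝ) - j| * (r / d) := by positivity
    linarith
  have hint := Lagrange.eq_interpolate (s := range d) (v := v) (f := T) hinj (by simpa using hT)
  have hev : T.eval w = ∑ i ∈ range d, T.eval (v i) * (Lagrange.basis (range d) v i).eval w := by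
    conv_lhs => rw [hint]
    rw [Lagrange.interpolate_apply, eval_finsetSum]
    apply sum_congr rfl
    intro i _
    rw [eval_mul, eval_C]
  have hbasis : ∀ i ∈ range d, ‖(Lagrange.basis (range d) v i).eval w‖
      ≤ (2 * d) ^ (d - 1) * ((d - 1).choose i : ℝ) / ((d - 1).factorial : ℝ) := by
    intro i hi
    have hid := mem_range.mp hi
    have h1 : (Lagrange.basis (range d) v i).eval w
        = ∏ j ∈ (range d).erase i, ((v i - v j)⁻¹ * (w - v j)) := by
      unfold Lagrange.basis
      rw [eval_prod]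
      apply prod_congr rfl
      intro j _
      simp [Lagrange.basisDivisor]
    rw [h1, norm_prod]
    have h2 : ∏ j ∈ (range d).erase i, ‖(v i - v j)⁻¹ * (w - v j)‖
        ≤ ∏ j ∈ (range d).erase i, ((2 * d) * (|(i:ℝ) - j|)⁻¹) := by
      apply prod_le_prod
      · intro j _; exact norm_nonneg _
      · intro j hj
        have hj' := mem_erase.mp hj
        have hjd := mem_range.mp hj'.2
        have hpos : 0 < |(i:ℝ) - j| := by
          rw [abs_pos, sub_ne_zero]
          exact_mod_cast (Ne.symm hj'.1)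
        rw [norm_mul, norm_inv]
        have h3 : (‖v i - v j‖)⁻¹ ≤ (|(i:ℝ) - j| * (r / d))⁻¹ := by
          apply inv_anti₀ (by positivity)
          exact hv i hid j hjd
        calc ‖v i - v j‖⁻¹ * ‖w - v j‖ ≤ (|(i:ℝ) - j| * (r / d))⁻¹ * (2 * r) :=
              mul_le_mul h3 (hw j hjd) (norm_nonneg _) (by positivity)
          _ = (2 * d) * (|(i:ℝ) - j|)⁻¹ := by
              field_simp
    refine h2.trans ?_
    rw [prod_mul_distrib, prod_const, card_erase_of_mem hi, card_range, prod_inv_distrib,
      prod_erase_range d i hid]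
    have h4 : ((d - 1).choose i : ℝ) * ((i.factorial : ℝ) * ((d - 1 - i).factorial : ℝ))
        = ((d - 1).factorial : ℝ) := by
      have := Nat.choose_mul_factorial_mul_factorial (show i ≤ d - 1 by omega)
      rw [← mul_assoc]
      exact_mod_cast this
    have hf1 : (0:ℝ) < (i.factorial : ℝ) * ((d - 1 - i).factorial : ℝ) := by
      have := Nat.factorial_pos i
      have := Nat.factorial_pos (d - 1 - i)
      positivity
    have hf2 : (0:ℝ) < ((d - 1).factorial : ℝ) := by
      exact_mod_cast Nat.factorial_pos (d - 1)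
    apply le_of_eq
    rw [eq_div_iff hf2.ne', ← h4]
    field_simp
  rw [hev]
  calc ‖∑ i ∈ range d, T.eval (v i) * (Lagrange.basis (range d) v i).eval w‖
      ≤ ∑ i ∈ range d, M * ((2 * d) ^ (d - 1) * ((d - 1).choose i : ℝ) / ((d - 1).factorial : ℝ)) := by
        apply (norm_sum_le _ _).trans
        apply sum_le_sum
        intro i hi
        rw [norm_mul]
        exact mul_le_mul (hTM i (mem_range.mp hi)) (hbasis i hi) (norm_nonneg _) hM
    _ = M * ((2 * d) ^ (d - 1) * (2:ℝ) ^ (d - 1) / ((d - 1).factorial : ℝ)) := by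
        rw [← mul_sum]
        congr 1
        rw [← sum_div, ← mul_sum]
        congr 2
        have h5 := Nat.sum_range_choose (d - 1)
        have h6 : d - 1 + 1 = d := by omega
        rw [h6] at h5
        exact_mod_cast h5
    _ ≤ 11 ^ d * M := by
        rw [mul_comm]
        apply mul_le_mul_of_nonneg_right _ hM
        obtain ⟨e, rfl⟩ : ∃ e, d = e + 1 := ⟨d - 1, by omega⟩
        simp only [Nat.add_sub_cancel]
        have h7 : ((2:ℝ) * ((e + 1 : ℕ) : ℝ)) ^ e * 2 ^ e / (e.factorial : ℝ)
            = 4 ^ e * ((((e + 1 : ℕ) : ℝ)) ^ (e + 1) / ((e + 1).factorial : ℝ)) := by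
          rw [Nat.factorial_succ, mul_pow]
          push_cast
          have h8 : (0:ℝ) < (e:ℝ) + 1 := by positivity
          have h9 : (0:ℝ) < (e.factorial : ℝ) := by exact_mod_cast Nat.factorial_pos e
          have h10 : (4:ℝ) ^ e = 2 ^ e * 2 ^ e := by
            rw [← mul_pow]; norm_num
          rw [h10, pow_succ]
          field_simp
        rw [h7]
        have h11 := pow_div_factorial_le_exp_nat (e + 1)
        have h12 : Real.exp ((e + 1 : ℕ) : ℝ) = Real.exp 1 ^ (e + 1) := by
          rw [← Real.exp_nat_mul]; simp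
        have h13 : Real.exp 1 ≤ 2.75 := by
          have := Real.exp_one_lt_d9
          linarith
        calc (4:ℝ) ^ e * ((((e + 1 : ℕ) : ℝ)) ^ (e + 1) / ((e + 1).factorial : ℝ))
            ≤ 4 ^ e * (2.75 ^ (e + 1)) := by
              apply mul_le_mul_of_nonneg_left _ (by positivity)
              refine h11.trans ?_
              rw [h12]
              exact pow_le_pow_left₀ (Real.exp_pos 1).le h13 _
          _ ≤ 4 ^ (e + 1) * (2.75 ^ (e + 1)) := by
              apply mul_le_mul_of_nonneg_right _ (by positivity)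
              exact pow_le_pow_right₀ (by norm_num) (Nat.le_succ e)
          _ = 11 ^ (e + 1) := by
              rw [← mul_pow]; norm_num

/-- Taylor remainder of an entire function bounded by `A` on a disc of radius `R r`. -/
theorem taylor_remainder (f : ℂ → ℂ) (hf : Differentiable ℂ f) (z₀ : ℂ) (r R A : ℝ) (hr : 0 < r)
    (hR : 2 ≤ R) (hA : ∀ w, ‖w - z₀‖ ≤ R * r → ‖f w‖ ≤ A) (d : ℕ) :
    ∃ T : ℂ[X], T.degree < d ∧ (d = 0 → T = 0) ∧ ∀ w, ‖w - z₀‖ ≤ r →
      ‖f w - T.eval w‖ ≤ 2 * A * (R⁻¹) ^ d := by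
  have hR0 : 0 < R := by linarith
  have hA0 : 0 ≤ A := by
    have := hA z₀ (by simp; positivity)
    exact (norm_nonneg _).trans this
  set a : ℕ → ℂ := fun n => ((n.factorial : ℂ))⁻¹ * iteratedDeriv n f z₀ with hadef
  have ha : ∀ n, ‖a n‖ ≤ A / (R * r) ^ n := by
    intro n
    have h1 := Complex.norm_iteratedDeriv_le_of_forall_mem_sphere_norm_le (f := f) (c := z₀)
      (R := R * r) (C := A) n (by positivity) hf.diffContOnCl (by
        intro z hz
        apply hA
        rw [mem_sphere_iff_norm] at hz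
        exact hz.le)
    simp only [hadef]
    rw [norm_mul, norm_inv, Complex.norm_natCast]
    have hfac : (0:ℝ) < (n.factorial : ℝ) := by exact_mod_cast Nat.factorial_pos n
    calc ((n.factorial : ℝ))⁻¹ * ‖iteratedDeriv n f z₀‖
        ≤ ((n.factorial : ℝ))⁻¹ * (n.factorial * A / (R * r) ^ n) :=
          mul_le_mul_of_nonneg_left h1 (by positivity)
      _ = A / (R * r) ^ n := by field_simp
  have hsum : ∀ w, HasSum (fun n => a n * (w - z₀) ^ n) (f w) := by
    intro w
    have h := Complex.hasSum_taylorSeries_of_entire hf z₀ w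
    have hfun : (fun n => a n * (w - z₀) ^ n)
        = fun n : ℕ => ((n.factorial : ℂ))⁻¹ • (w - z₀) ^ n • iteratedDeriv n f z₀ := by
      funext n
      simp only [hadef, smul_eq_mul]
      ring
    rw [hfun]
    exact h
  refine ⟨∑ n ∈ range d, C (a n) * (X - C z₀) ^ n, ?_, ?_, ?_⟩
  · rcases Nat.eq_zero_or_pos d with h0 | hd
    · subst h0
      simp
    · refine lt_of_le_of_lt (degree_sum_le _ _) ?_
      rw [Finset.sup_lt_iff (by exact_mod_cast WithBot.bot_lt_coe d)]
      intro n hn
      have hn' := mem_range.mp hn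
      have hdeg : ((X - C z₀) ^ n : ℂ[X]).degree = (n : WithBot ℕ) := by
        rw [degree_pow, degree_X_sub_C]
        simp
      calc (C (a n) * (X - C z₀) ^ n : ℂ[X]).degree
          ≤ (C (a n) : ℂ[X]).degree + ((X - C z₀) ^ n : ℂ[X]).degree := degree_mul_le _ _
        _ ≤ 0 + (n : WithBot ℕ) := by
            rw [hdeg]
            exact add_le_add degree_C_le le_rfl
        _ = (n : WithBot ℕ) := zero_add _
        _ < d := by exact_mod_cast hn'
  · intro h0
    subst h0
    simp
  · intro w hw
    have hev : (∑ n ∈ range d, C (a n) * (X - C z₀) ^ n : ℂ[X]).eval w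
        = ∑ n ∈ range d, a n * (w - z₀) ^ n := by
      rw [eval_finsetSum]
      apply sum_congr rfl
      intro n _
      simp
    rw [hev]
    have htail : HasSum (fun n => a (n + d) * (w - z₀) ^ (n + d))
        (f w - ∑ n ∈ range d, a n * (w - z₀) ^ n) := by
      exact (hasSum_nat_add_iff' d).mpr (hsum w)
    have hbound : ∀ n, ‖a (n + d) * (w - z₀) ^ (n + d)‖ ≤ A * (R⁻¹) ^ d * (1 / 2) ^ n := by
      intro n
      rw [norm_mul, norm_pow]
      calc ‖a (n + d)‖ * ‖w - z₀‖ ^ (n + d) ≤ A / (R * r) ^ (n + d) * r ^ (n + d) := by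
            apply mul_le_mul (ha _) (pow_le_pow_left₀ (norm_nonneg _) hw _) (by positivity)
              (by positivity)
        _ = A / R ^ (n + d) := by
            have hrn : r ^ (n + d) ≠ 0 := by positivity
            rw [mul_pow]
            field_simp
        _ = A * (R⁻¹) ^ d * (R⁻¹) ^ n := by
            rw [inv_pow, inv_pow, pow_add, div_eq_mul_inv, mul_inv]
            ring
        _ ≤ A * (R⁻¹) ^ d * (1 / 2) ^ n := by
            apply mul_le_mul_of_nonneg_left _ (by positivity)
            apply pow_le_pow_left₀ (by positivity)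
            rw [one_div]
            exact inv_anti₀ (by norm_num) hR
    have hgeo : HasSum (fun n : ℕ => A * (R⁻¹) ^ d * (1 / 2 : ℝ) ^ n) (A * (R⁻¹) ^ d * 2) := by
      apply HasSum.mul_left
      exact hasSum_geometric_two
    have h := htail.norm_le_of_bounded hgeo hbound
    linarith [h]

end Pool.Agent.MP_e061a3_an
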