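import Pool.Agent.MP_e061a3_an.Curve

set_option autoImplicit false

/-!
# Power series with gaps: coefficients by exponent, truncation, densities
-/

namespace Pool.Agent.MP_e061a3_an

open Finset Filter Topology

/-- Coefficients indexed by the exponent. -/
noncomputable def coef (p : ℕ → ℕ) (a : ℕ → ℂ) : ℕ → ℂ := Function.extend p a 0

lemma coef_apply (p : ℕ → ℕ) (hp : StrictMono p) (a : ℕ → ℂ) (n : ℕ) : coef p a (p n) = a n :=
  hp.injective.extend_apply _ _ _

lemma coef_ne_zero (p : ℕ → ℕ) (a : ℕ → ℂ) (m : ℕ) (h : coef p a m ≠ 0) : ∃ n, p n = m := by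
  by_contra hne
  exact h (Function.extend_apply' _ _ _ hne)

lemma coef_term (p : ℕ → ℕ) (hp : StrictMono p) (a : ℕ → ℂ) (z : ℂ) :
    (fun m => coef p a m * z ^ m) = Function.extend p (fun n => a n * z ^ (p n)) 0 := by
  funext m
  by_cases h : ∃ n, p n = m
  · obtain ⟨n, rfl⟩ := h
    rw [coef_apply p hp, hp.injective.extend_apply]
  · rw [Function.extend_apply' _ _ _ h]
    unfold coef
    rw [Function.extend_apply' _ _ _ h]
    simp

lemma summable_coef (p : ℕ → ℕ) (hp : StrictMono p) (a : ℕ → ℂ)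
    (hs : ∀ z : ℂ, Summable (fun n => a n * z ^ (p n))) (z : ℂ) :
    Summable (fun m => coef p a m * z ^ m) := by
  rw [coef_term p hp]
  exact (summable_extend_zero hp.injective).mpr (hs z)

lemma tsum_coef (p : ℕ → ℕ) (hp : StrictMono p) (a : ℕ → ℂ) (z : ℂ) :
    ∑' m, coef p a m * z ^ m = ∑' n, a n * z ^ (p n) := by
  have h := coef_term p hp a z
  rw [show (∑' m, coef p a m * z ^ m) = ∑' m, (fun m => coef p a m * z ^ m) m from rfl, h]
  exact tsum_extend_zero hp.injective _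

/-- The tail of the majorant series. -/
noncomputable def tailT (c : ℕ → ℂ) (x : ℝ) (J : ℕ) : ℝ :=
  ∑' m : ℕ, ‖c (m + 2 ^ (J + 1))‖ * Real.exp (((m + 2 ^ (J + 1) : ℕ) : ℝ) * x)

lemma summable_majorant (c : ℕ → ℂ) (hs : ∀ z : ℂ, Summable (fun m => c m * z ^ m)) (x : ℝ) :
    Summable (fun m : ℕ => ‖c m‖ * Real.exp ((m:ℝ) * x)) := by
  have h := (hs (Complex.exp x)).norm
  refine h.congr ?_
  intro m
  rw [norm_mul, norm_pow, Complex.norm_exp, Complex.ofReal_re, Real.exp_nat_mul]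

lemma tendsto_tailT (c : ℕ → ℂ) (x : ℝ) : Tendsto (tailT c x) atTop (𝓝 0) := by
  have h := tendsto_sum_nat_add (fun m : ℕ => ‖c m‖ * Real.exp ((m:ℝ) * x))
  have h2 : Tendsto (fun J : ℕ => 2 ^ (J + 1)) atTop atTop :=
    (tendsto_pow_atTop_atTop_of_one_lt (by norm_num : 1 < 2)).comp (tendsto_add_atTop_nat 1)
  exact h.comp h2

lemma truncation (c : ℕ → ℂ) (hs : ∀ z : ℂ, Summable (fun m => c m * z ^ m)) (x : ℝ) (J : ℕ)
    (w : ℂ) (hw : w.re ≤ x) :
    ‖(∑' m, c m * (Complex.exp w) ^ m) - expSum c (SL c J) w‖ ≤ tailT c x J := by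
  have hsum := hs (Complex.exp w)
  have hrange : expSum c (SL c J) w = ∑ m ∈ range (2 ^ (J + 1)), c m * (Complex.exp w) ^ m := by
    unfold expSum SL
    rw [sum_filter_of_ne (p := fun p => c p ≠ 0)]
    · apply sum_congr rfl
      intro m _
      rw [← Complex.exp_nat_mul]
    · intro m _ hne h0
      rw [h0, zero_mul] at hne
      exact hne rfl
  rw [hrange, ← hsum.sum_add_tsum_nat_add (2 ^ (J + 1)), add_sub_cancel_left]
  have hmaj := (summable_nat_add_iff (2 ^ (J + 1))).mpr (summable_majorant c hs x)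
  unfold tailT
  apply tsum_of_norm_bounded hmaj.hasSum
  intro m
  rw [norm_mul, ← Complex.exp_nat_mul, Complex.norm_exp]
  apply mul_le_mul_of_nonneg_left _ (norm_nonneg _)
  apply Real.exp_le_exp.mpr
  have : (((m + 2 ^ (J + 1) : ℕ) : ℂ) * w).re = ((m + 2 ^ (J + 1) : ℕ) : ℝ) * w.re := by
    generalize m + 2 ^ (J + 1) = q
    simp
  rw [this]
  exact mul_le_mul_of_nonneg_left hw (Nat.cast_nonneg _)

/-- Indices of exponents below `2^(l+1)`. -/
def idx (p : ℕ → ℕ) (l : ℕ) : Finset ℕ := (range (2 ^ (l + 1))).filter (fun n => p n < 2 ^ (l + 1))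

lemma mem_idx (p : ℕ → ℕ) (hp : StrictMono p) (l n : ℕ) : n ∈ idx p l ↔ p n < 2 ^ (l + 1) := by
  unfold idx
  rw [mem_filter, mem_range]
  constructor
  · exact fun h => h.2
  · intro h
    exact ⟨(hp.le_apply).trans_lt h, h⟩

lemma card_idx_le (p : ℕ → ℕ) (l : ℕ) : (idx p l).card ≤ 2 ^ (l + 1) := by
  unfold idx
  exact (card_filter_le _ _).trans (card_range _).le

lemma lt_card_idx (p : ℕ → ℕ) (hp : StrictMono p) (l n : ℕ) (h : p n < 2 ^ (l + 1)) :
    n + 1 ≤ (idx p l).card := by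
  have h1 : range (n + 1) ⊆ idx p l := by
    intro k hk
    rw [mem_idx p hp]
    rw [mem_range] at hk
    exact (hp.monotone (by omega : k ≤ n)).trans_lt h
  calc n + 1 = (range (n + 1)).card := (card_range _).symm
    _ ≤ (idx p l).card := card_le_card h1

lemma card_SL_le (p : ℕ → ℕ) (hp : StrictMono p) (a : ℕ → ℂ) (l : ℕ) :
    (SL (coef p a) l).card ≤ (idx p l).card := by
  have h1 : SL (coef p a) l ⊆ (idx p l).image p := by
    intro m hm
    rw [mem_SL] at hm
    obtain ⟨n, rfl⟩ := coef_ne_zero p a m hm.2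
    rw [mem_image]
    exact ⟨n, (mem_idx p hp l n).mpr hm.1, rfl⟩
  exact (card_le_card h1).trans card_image_le

/-- The density at level `l`. -/
noncomputable def dens (p : ℕ → ℕ) (l : ℕ) : ℝ :=
  max ((idx p l).card : ℝ) ((l:ℝ) + 1) / 2 ^ (l + 1)

lemma dens_pos (p : ℕ → ℕ) (l : ℕ) : 0 < dens p l := by
  unfold dens
  have : (0:ℝ) < (l:ℝ) + 1 := by positivity
  have := this.trans_le (le_max_right ((idx p l).card : ℝ) _)
  positivity

lemma succ_le_two_pow (l : ℕ) : (l:ℝ) + 1 ≤ 2 ^ (l + 1) := by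
  have h : l + 1 < 2 ^ (l + 1) := Nat.lt_two_pow_self
  exact_mod_cast h.le

lemma dens_le_one (p : ℕ → ℕ) (l : ℕ) : dens p l ≤ 1 := by
  unfold dens
  rw [div_le_one (by positivity)]
  apply max_le
  · exact_mod_cast card_idx_le p l
  · exact succ_le_two_pow l

lemma dens_mul (p : ℕ → ℕ) (l : ℕ) :
    2 ^ (l + 1) * dens p l = max ((idx p l).card : ℝ) ((l:ℝ) + 1) := by
  unfold dens
  field_simp

lemma card_le_dens (p : ℕ → ℕ) (hp : StrictMono p) (a : ℕ → ℂ) (l : ℕ) :
    ((SL (coef p a) l).card : ℝ) ≤ 2 ^ (l + 1) * dens p l := by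
  rw [dens_mul]
  refine le_max_of_le_left ?_
  exact_mod_cast card_SL_le p hp a l

lemma succ_le_dens (p : ℕ → ℕ) (l : ℕ) : ((l:ℝ) + 1) ≤ 2 ^ (l + 1) * dens p l := by
  rw [dens_mul]
  exact le_max_right _ _

/-- Swapping a double sum over levels and indices. -/
lemma summable_swap (p : ℕ → ℕ) (hp : StrictMono p) (φ : ℕ → ℕ → ℝ) (B : ℕ → ℝ)
    (hφ : ∀ l n, p n < 2 ^ (l + 1) → 0 ≤ φ l n)
    (hB : ∀ n L, ∑ l ∈ (range L).filter (fun l => p n < 2 ^ (l + 1)), φ l n ≤ B n)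
    (hBs : Summable B) : Summable (fun l => ∑ n ∈ idx p l, φ l n) := by
  have hB0 : ∀ n, 0 ≤ B n := by
    intro n
    have := hB n 0
    simpa using this
  apply summable_of_sum_range_le (c := ∑' n, B n)
  · intro l
    apply sum_nonneg
    intro n hn
    exact hφ l n ((mem_idx p hp l n).mp hn)
  · intro L
    have h1 : ∑ l ∈ range L, ∑ n ∈ idx p l, φ l n
        = ∑ n ∈ range (2 ^ L), ∑ l ∈ (range L).filter (fun l => p n < 2 ^ (l + 1)), φ l n := by
      apply sum_comm'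
      intro l n
      rw [mem_idx p hp, mem_filter, mem_range, mem_range]
      constructor
      · rintro ⟨hl, hn⟩
        refine ⟨⟨hl, hn⟩, ?_⟩
        calc n ≤ p n := hp.le_apply
          _ < 2 ^ (l + 1) := hn
          _ ≤ 2 ^ L := Nat.pow_le_pow_right (by norm_num) (by omega)
      · rintro ⟨⟨hl, hn⟩, _⟩
        exact ⟨hl, hn⟩
    rw [h1]
    calc ∑ n ∈ range (2 ^ L), ∑ l ∈ (range L).filter (fun l => p n < 2 ^ (l + 1)), φ l n
        ≤ ∑ n ∈ range (2 ^ L), B n := sum_le_sum (fun n _ => hB n L)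
      _ ≤ ∑' n, B n := hBs.sum_le_tsum _ (fun n _ => hB0 n)

lemma geom_sum_half (K : ℕ) : ∑ k ∈ range K, ((1:ℝ) / 2) ^ k ≤ 2 := by
  have h : ∑ k ∈ range K, ((1:ℝ) / 2) ^ k = 2 - 2 * (1 / 2) ^ K := by
    induction K with
    | zero => simp
    | succ K ih => rw [sum_range_succ, ih, pow_succ]; ring
  rw [h]
  have : (0:ℝ) < (1 / 2) ^ K := by positivity
  linarith

lemma geom_sum_half_mul (K : ℕ) : ∑ k ∈ range K, ((k:ℝ) + 1) * ((1:ℝ) / 2) ^ k ≤ 4 := by
  have h : ∑ k ∈ range K, ((k:ℝ) + 1) * ((1:ℝ) / 2) ^ k = 4 - (2 * K + 4) * (1 / 2) ^ K := by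
    induction K with
    | zero => simp
    | succ K ih => rw [sum_range_succ, ih, pow_succ]; push_cast; ring
  rw [h]
  have : (0:ℝ) < (1 / 2) ^ K := by positivity
  have : (0:ℝ) ≤ K := Nat.cast_nonneg K
  nlinarith

/-- Sum over the levels above an exponent `q`. -/
lemma level_sum (q : ℕ) (hq : 0 < q) (K : ℝ) (hK : 0 ≤ K) (φ : ℕ → ℝ)
    (hφ : ∀ l k : ℕ, l = Nat.log 2 q + k →
      φ l ≤ 1 / (q:ℝ) * ((1 / 2) ^ k * (K + (k + 1)))) (L : ℕ) :
    ∑ l ∈ (range L).filter (fun l => q < 2 ^ (l + 1)), φ l ≤ 1 / (q:ℝ) * (2 * K + 4) := by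
  set l₀ := Nat.log 2 q with hl₀
  have hset : (range L).filter (fun l => q < 2 ^ (l + 1)) = Ico l₀ L := by
    ext l
    rw [mem_filter, mem_range, mem_Ico]
    rw [← Nat.log_lt_iff_lt_pow (by norm_num) hq.ne']
    rw [← hl₀]
    omega
  rw [hset, sum_Ico_eq_sum_range]
  calc ∑ k ∈ range (L - l₀), φ (l₀ + k)
      ≤ ∑ k ∈ range (L - l₀), 1 / (q:ℝ) * ((1 / 2) ^ k * (K + (k + 1))) :=
        sum_le_sum (fun k _ => hφ _ k rfl)
    _ = 1 / (q:ℝ) * (K * ∑ k ∈ range (L - l₀), ((1:ℝ) / 2) ^ k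
        + ∑ k ∈ range (L - l₀), ((k:ℝ) + 1) * ((1:ℝ) / 2) ^ k) := by
        rw [← mul_sum]
        congr 1
        rw [mul_sum, ← sum_add_distrib]
        apply sum_congr rfl
        intro k _
        ring
    _ ≤ 1 / (q:ℝ) * (2 * K + 4) := by
        apply mul_le_mul_of_nonneg_left _ (by positivity)
        have h1 := geom_sum_half (L - l₀)
        have h2 := geom_sum_half_mul (L - l₀)
        nlinarith

lemma two_pow_bounds (q : ℕ) (hq : 0 < q) (k : ℕ) :
    (q:ℝ) * 2 ^ k ≤ 2 ^ (Nat.log 2 q + k + 1) ∧ (2:ℝ) ^ (Nat.log 2 q + k + 1) ≤ q * 2 ^ (k + 1) := by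
  have h1 : 2 ^ Nat.log 2 q ≤ q := Nat.pow_log_le_self 2 hq.ne'
  have h2 : q < 2 ^ (Nat.log 2 q + 1) := Nat.lt_pow_succ_log_self (by norm_num) q
  have h1R : (2:ℝ) ^ Nat.log 2 q ≤ q := by exact_mod_cast h1
  have h2R : (q:ℝ) ≤ 2 ^ (Nat.log 2 q + 1) := by exact_mod_cast h2.le
  constructor
  · rw [show Nat.log 2 q + k + 1 = (Nat.log 2 q + 1) + k by ring, pow_add]
    exact mul_le_mul_of_nonneg_right h2R (by positivity)
  · rw [add_assoc, pow_add]
    exact mul_le_mul_of_nonneg_right h1R (by positivity)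

/-- Summability of the densities. -/
lemma summable_aux (p : ℕ → ℕ) (hp : StrictMono p) (hpos : ∀ n, 0 < p n)
    (hsum : Summable (fun n => 1 / (p n : ℝ))) :
    Summable (fun l => ((idx p l).card : ℝ) / 2 ^ (l + 1)) := by
  have h := summable_swap p hp (fun l _ => 1 / (2:ℝ) ^ (l + 1)) (fun n => 1 / (p n : ℝ) * 4)
    (fun l n _ => by positivity) (fun n L => by
      have := level_sum (p n) (hpos n) 0 (le_refl _) (fun l => 1 / (2:ℝ) ^ (l + 1)) (by
        intro l k hlk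
        have hb := (two_pow_bounds (p n) (hpos n) k).1
        rw [← hlk] at hb
        have hp0 : (0:ℝ) < p n := by exact_mod_cast hpos n
        have h1 : 1 / (2:ℝ) ^ (l + 1) ≤ 1 / ((p n : ℝ) * 2 ^ k) :=
          one_div_le_one_div_of_le (by positivity) hb
        refine h1.trans ?_
        have h2 : 1 / ((p n : ℝ) * 2 ^ k) = 1 / (p n : ℝ) * ((1 / 2) ^ k * 1) := by
          rw [one_div_pow]
          field_simp
        rw [h2]
        apply mul_le_mul_of_nonneg_left _ (by positivity)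
        apply mul_le_mul_of_nonneg_left _ (by positivity)
        have : (0:ℝ) ≤ k := Nat.cast_nonneg k
        linarith) L
      simpa using this) (hsum.mul_right 4)
  refine h.congr ?_
  intro l
  rw [sum_const, nsmul_eq_mul]
  ring

lemma summable_geom : Summable (fun l : ℕ => ((l:ℝ) + 1) / 2 ^ (l + 1)) := by
  apply summable_of_sum_range_le (c := 2)
  · intro l; positivity
  · intro L
    have h := geom_sum_half_mul L
    have h2 : ∑ l ∈ range L, ((l:ℝ) + 1) / 2 ^ (l + 1)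
        = (1 / 2) * ∑ k ∈ range L, ((k:ℝ) + 1) * ((1:ℝ) / 2) ^ k := by
      rw [mul_sum]
      apply sum_congr rfl
      intro k _
      rw [one_div_pow, pow_succ]
      field_simp
    rw [h2]
    linarith

lemma summable_dens (p : ℕ → ℕ) (hp : StrictMono p) (hpos : ∀ n, 0 < p n)
    (hsum : Summable (fun n => 1 / (p n : ℝ))) : Summable (dens p) := by
  refine Summable.of_nonneg_of_le (fun l => (dens_pos p l).le) ?_
    ((summable_aux p hp hpos hsum).add summable_geom)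
  intro l
  unfold dens
  rw [← add_div]
  apply div_le_div_of_nonneg_right _ (by positivity)
  apply max_le
  · have : (0:ℝ) ≤ (l:ℝ) + 1 := by positivity
    linarith
  · have : (0:ℝ) ≤ ((idx p l).card : ℝ) := Nat.cast_nonneg _
    linarith

end Pool.Agent.MP_e061a3_an
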