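import Mathlib

set_option autoImplicit false

/-!
# Turan's first main theorem (power sums) and exponential sums with few terms
-/

namespace Pool.Agent.MP_e061a3_an

open Finset

/-- The constant `2^n * binom(n+m, n)` of Turan's first main theorem. -/
noncomputable def turanC (n m : ℕ) : ℝ := 2 ^ n * ((n + m).choose n : ℝ)

lemma one_le_turanC (n m : ℕ) : 1 ≤ turanC n m := by
  unfold turanC
  have h1 : (1:ℝ) ≤ 2 ^ n := one_le_pow₀ (by norm_num)
  have h2 : (1:ℝ) ≤ ((n + m).choose n : ℝ) := by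
    exact_mod_cast Nat.choose_pos (Nat.le_add_right n m)
  nlinarith

lemma sum_choose_hockey (n m : ℕ) :
    ∑ i ∈ range (m + 1), ((n + i).choose n : ℝ) = ((n + 1 + m).choose (n + 1) : ℝ) := by
  induction m with
  | zero => simp
  | succ m ih =>
    rw [sum_range_succ, ih]
    have h : (n + 1 + (m + 1)).choose (n + 1)
        = (n + (m + 1)).choose n + (n + 1 + m).choose (n + 1) := by
      have : n + 1 + (m + 1) = (n + 1 + m) + 1 := by ring
      rw [this, Nat.choose_succ_succ]
      congr 2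
      ring
    rw [h]
    push_cast
    ring

/-- Turan's first main theorem, in the form: if all `|z_k| ≥ 1` and the power sums
`∑ b_k z_k^j` are bounded by `M` for `m < j ≤ m + n`, then `|∑ b_k| ≤ (C(n,m) - 1) M`. -/
theorem turan_aux {ι : Type*} [DecidableEq ι] (s : Finset ι) :
    ∀ (m : ℕ) (z b : ι → ℂ) (M : ℝ), 0 ≤ M → (∀ k ∈ s, 1 ≤ ‖z k‖) →
      (∀ j, m < j → j ≤ m + s.card → ‖∑ k ∈ s, b k * z k ^ j‖ ≤ M) →
      ‖∑ k ∈ s, b k‖ ≤ (turanC s.card m - 1) * M := by
  induction s using Finset.induction_on with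
  | empty =>
    intro m z b M hM _ _
    simp [turanC]
  | insert a s ha ih =>
    intro m z b M hM hz hT
    have hza : 1 ≤ ‖z a‖ := hz a (mem_insert_self a s)
    have hza0 : z a ≠ 0 := by
      intro h; rw [h, norm_zero] at hza; linarith
    have hcard : (insert a s).card = s.card + 1 := card_insert_of_notMem ha
    set T : ℕ → ℂ := fun j => ∑ k ∈ insert a s, b k * z k ^ j with hTdef
    have hTb : ∀ j, m < j → j ≤ m + (s.card + 1) → ‖T j‖ ≤ M := by
      intro j h1 h2
      exact hT j h1 (by rw [hcard]; exact h2)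
    set t : ℕ → ℂ := fun i => (z a)⁻¹ * T (i + 1) - T i with htdef
    have hinv : ‖(z a)⁻¹‖ ≤ 1 := by
      rw [norm_inv]; exact inv_le_one_of_one_le₀ hza
    -- formula for t
    have ht : ∀ i, t i = ∑ k ∈ s, (b k * (z k / z a - 1)) * z k ^ i := by
      intro i
      simp only [htdef, hTdef]
      rw [sum_insert ha, sum_insert ha, mul_add, mul_sum]
      have h1 : (z a)⁻¹ * (b a * z a ^ (i + 1)) = b a * z a ^ i := by
        rw [pow_succ]; field_simp
      rw [h1]
      have h2 : ∑ k ∈ s, (b k * (z k / z a - 1)) * z k ^ i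
          = ∑ k ∈ s, (z a)⁻¹ * (b k * z k ^ (i + 1)) - ∑ k ∈ s, b k * z k ^ i := by
        rw [← sum_sub_distrib]
        apply sum_congr rfl
        intro k _
        rw [pow_succ]
        field_simp
      rw [h2]; ring
    -- bound for t
    have htb : ∀ i, i ≤ m → ‖t i‖ ≤ (turanC s.card (m - i) - 1) * (2 * M) := by
      intro i hi
      rw [ht i]
      apply ih (m - i) z (fun k => b k * (z k / z a - 1) * z k ^ i) (2 * M) (by linarith)
        (fun k hk => hz k (mem_insert_of_mem hk))
      intro j hj1 hj2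
      have h1 : ∑ k ∈ s, b k * (z k / z a - 1) * z k ^ i * z k ^ j = t (i + j) := by
        rw [ht (i + j)]
        apply sum_congr rfl
        intro k _
        rw [pow_add]; ring
      rw [h1]
      simp only [htdef]
      calc ‖(z a)⁻¹ * T (i + j + 1) - T (i + j)‖
          ≤ ‖(z a)⁻¹ * T (i + j + 1)‖ + ‖T (i + j)‖ := norm_sub_le _ _
        _ ≤ 1 * M + M := by
            apply add_le_add
            · rw [norm_mul]
              apply mul_le_mul hinv (hTb _ (by omega) (by omega)) (norm_nonneg _) zero_le_one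
            · exact hTb _ (by omega) (by omega)
        _ = 2 * M := by ring
    -- telescoping
    have htel : ∀ r : ℕ, T 0 = ((z a)⁻¹) ^ r * T r - ∑ i ∈ range r, ((z a)⁻¹) ^ i * t i := by
      intro r
      induction r with
      | zero => simp
      | succ r ihr =>
        rw [ihr, sum_range_succ]
        simp only [htdef]
        ring
    have hT0 : ∑ k ∈ insert a s, b k = T 0 := by
      simp [hTdef]
    rw [hT0, htel (m + 1), hcard]
    have hpow : ∀ i : ℕ, ‖((z a)⁻¹) ^ i‖ ≤ 1 := by
      intro i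
      rw [norm_pow]
      exact pow_le_one₀ (norm_nonneg _) hinv
    have hsum : ∑ i ∈ range (m + 1), (turanC s.card (m - i) - 1)
        = turanC (s.card + 1) m / 2 - (m + 1) := by
      rw [← Finset.sum_range_reflect]
      simp only [sum_sub_distrib, sum_const, card_range, nsmul_eq_mul, mul_one, turanC]
      push_cast
      have h3 : ∀ i ∈ range (m + 1), (2:ℝ) ^ s.card *
          ((s.card + (m - (m - i))).choose s.card : ℝ)
          = 2 ^ s.card * ((s.card + i).choose s.card : ℝ) := by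
        intro i hi
        have : m - (m - i) = i := by
          have := mem_range.mp hi
          omega
        rw [this]
      rw [sum_congr rfl h3, ← mul_sum, sum_choose_hockey]
      rw [pow_succ]
      ring
    calc ‖((z a)⁻¹) ^ (m + 1) * T (m + 1) - ∑ i ∈ range (m + 1), ((z a)⁻¹) ^ i * t i‖
        ≤ ‖((z a)⁻¹) ^ (m + 1) * T (m + 1)‖ + ‖∑ i ∈ range (m + 1), ((z a)⁻¹) ^ i * t i‖ :=
          norm_sub_le _ _
      _ ≤ M + ∑ i ∈ range (m + 1), (turanC s.card (m - i) - 1) * (2 * M) := by
          apply add_le_add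
          · rw [norm_mul]
            calc ‖((z a)⁻¹) ^ (m + 1)‖ * ‖T (m + 1)‖ ≤ 1 * M :=
                  mul_le_mul (hpow _) (hTb _ (by omega) (by omega)) (norm_nonneg _) zero_le_one
              _ = M := one_mul M
          · apply (norm_sum_le _ _).trans
            apply sum_le_sum
            intro i hi
            rw [norm_mul]
            have him : i ≤ m := by have := mem_range.mp hi; omega
            calc ‖((z a)⁻¹) ^ i‖ * ‖t i‖ ≤ 1 * ((turanC s.card (m - i) - 1) * (2 * M)) :=
                  mul_le_mul (hpow _) (htb i him) (norm_nonneg _) zero_le_one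
              _ = _ := one_mul _
      _ = M + (turanC (s.card + 1) m / 2 - (m + 1)) * (2 * M) := by
          rw [← sum_mul, hsum]
      _ ≤ (turanC (s.card + 1) m - 1) * M := by
          have : (0:ℝ) ≤ (m:ℝ) := Nat.cast_nonneg m
          nlinarith

theorem turan {ι : Type*} [DecidableEq ι] (s : Finset ι) (m : ℕ) (z b : ι → ℂ) (M : ℝ)
    (hM : 0 ≤ M) (hz : ∀ k ∈ s, 1 ≤ ‖z k‖)
    (hT : ∀ j, m < j → j ≤ m + s.card → ‖∑ k ∈ s, b k * z k ^ j‖ ≤ M) :
    ‖∑ k ∈ s, b k‖ ≤ turanC s.card m * M := by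
  have := turan_aux s m z b M hM hz hT
  nlinarith

lemma pow_div_factorial_le_exp_nat (n : ℕ) : ((n:ℝ) ^ n) / (n.factorial : ℝ) ≤ Real.exp n := by
  exact Real.pow_div_factorial_le_exp (n:ℝ) (Nat.cast_nonneg n) n

/-- `C(n,m) ≤ (2 e K)^n` as soon as `n + m ≤ K n`. -/
lemma turanC_le (n m : ℕ) (K : ℝ) (hK : ((n + m : ℕ) : ℝ) ≤ K * n) :
    turanC n m ≤ (2 * Real.exp 1 * K) ^ n := by
  rcases Nat.eq_zero_or_pos n with h0 | hn
  · subst h0
    simp [turanC]
  have hnR : (0:ℝ) < n := by exact_mod_cast hn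
  have hK0 : 0 ≤ K := by
    by_contra h
    push Not at h
    have : K * n < 0 := mul_neg_of_neg_of_pos h hnR
    have h2 : (0:ℝ) ≤ ((n + m : ℕ) : ℝ) := Nat.cast_nonneg _
    linarith
  unfold turanC
  have h1 : ((n + m).choose n : ℝ) ≤ ((n + m : ℕ) : ℝ) ^ n / (n.factorial : ℝ) :=
    Nat.choose_le_pow_div n (n + m)
  have hf : (0:ℝ) < (n.factorial : ℝ) := by exact_mod_cast Nat.factorial_pos n
  have h2 : ((n + m : ℕ) : ℝ) ^ n / (n.factorial : ℝ) ≤ (K * n) ^ n / (n.factorial : ℝ) := by
    apply div_le_div_of_nonneg_right _ hf.le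
    exact pow_le_pow_left₀ (Nat.cast_nonneg _) hK n
  have h3 : (K * n) ^ n / (n.factorial : ℝ) ≤ K ^ n * Real.exp n := by
    rw [mul_pow, mul_div_assoc]
    exact mul_le_mul_of_nonneg_left (pow_div_factorial_le_exp_nat n) (pow_nonneg hK0 n)
  have h4 : Real.exp (n:ℝ) = Real.exp 1 ^ n := by
    rw [← Real.exp_nat_mul]; simp
  calc (2:ℝ) ^ n * ((n + m).choose n : ℝ) ≤ 2 ^ n * (K ^ n * Real.exp 1 ^ n) := by
        apply mul_le_mul_of_nonneg_left _ (by positivity)
        rw [← h4]; linarith
    _ = (2 * Real.exp 1 * K) ^ n := by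
        rw [mul_pow, mul_pow]; ring

/-! ### Exponential sums -/

/-- Exponential sum with (natural) frequencies in `S` and coefficients `c`. -/
noncomputable def expSum (c : ℕ → ℂ) (S : Finset ℕ) (w : ℂ) : ℂ :=
  ∑ p ∈ S, c p * Complex.exp (p * w)

lemma differentiable_expSum (c : ℕ → ℂ) (S : Finset ℕ) : Differentiable ℂ (expSum c S) := by
  unfold expSum
  fun_prop

/-- Directional form of Turan's theorem for exponential sums, with a weight `exp (-q j Re ζ)`. -/
theorem expSum_turan (c : ℕ → ℂ) (S : Finset ℕ) (m : ℕ) (w ζ : ℂ) (q M : ℝ) (hM : 0 ≤ M)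
    (hq : ∀ p ∈ S, 0 ≤ ((p:ℝ) - q) * ζ.re)
    (hT : ∀ j : ℕ, m < j → j ≤ m + S.card →
      ‖expSum c S (w + j * ζ)‖ * Real.exp (-(q * j * ζ.re)) ≤ M) :
    ‖expSum c S w‖ ≤ turanC S.card m * M := by
  have h := turan S m (fun p => Complex.exp (((p:ℂ) - q) * ζ)) (fun p => c p * Complex.exp (p * w))
    M hM ?_ ?_
  · exact h
  · intro p hp
    rw [Complex.norm_exp]
    have : (((p:ℂ) - q) * ζ).re = ((p:ℝ) - q) * ζ.re := by
      simp
    rw [this]
    exact Real.one_le_exp (hq p hp)
  · intro j h1 h2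
    have h3 : ∑ k ∈ S, c k * Complex.exp (k * w) * Complex.exp (((k:ℂ) - q) * ζ) ^ j
        = expSum c S (w + j * ζ) * Complex.exp (-(q * j * ζ)) := by
      unfold expSum
      rw [sum_mul]
      apply sum_congr rfl
      intro k _
      rw [← Complex.exp_nat_mul, mul_assoc, mul_assoc, ← Complex.exp_add, ← Complex.exp_add]
      congr 2
      ring
    rw [h3, norm_mul, Complex.norm_exp]
    have h4 : (-((q:ℂ) * j * ζ)).re = -(q * j * ζ.re) := by
      simp [mul_assoc]
    rw [h4]
    exact hT j h1 h2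

end Pool.Agent.MP_e061a3_an
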